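import Pool.Agent.W710.Tube.Carpet

/-!
Existence of the carpets.
-/

set_option autoImplicit false

namespace Pool.Agent.W710.Tube

open Finset

/-- the number `0.f₀f₁f₂…` in base `b` -/
noncomputable def dig (b : ℕ) (f : ℕ → ℕ) : ℝ := ∑' k, (f k : ℝ) / (b : ℝ) ^ (k + 1)

lemma dig_bound {b B : ℕ} {f : ℕ → ℕ} (hf : ∀ k, f k ≤ B) (k : ℕ) :
    ‖(f k : ℝ) / (b : ℝ) ^ (k + 1)‖ ≤ (B : ℝ) * (1 / (b : ℝ)) ^ (k + 1) := by
  rw [Real.norm_eq_abs, abs_of_nonneg (by positivity), one_div, inv_pow, ← div_eq_mul_inv]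
  apply div_le_div_of_nonneg_right _ (by positivity)
  exact_mod_cast hf k

lemma summable_bound {b : ℕ} (hb : 1 < b) (B : ℕ) :
    Summable fun k : ℕ => (B : ℝ) * (1 / (b : ℝ)) ^ (k + 1) := by
  have hb' : (1 : ℝ) < b := by exact_mod_cast hb
  have h : Summable fun k : ℕ => (1 / (b : ℝ)) ^ k := by
    apply summable_geometric_of_lt_one (by positivity)
    rw [div_lt_one (by linarith)]
    exact hb'
  exact ((summable_nat_add_iff 1).2 h).mul_left _

lemma dig_summable {b B : ℕ} (hb : 1 < b) {f : ℕ → ℕ} (hf : ∀ k, f k ≤ B) :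
    Summable fun k => (f k : ℝ) / (b : ℝ) ^ (k + 1) :=
  Summable.of_norm_bounded (summable_bound hb B) (dig_bound hf)

lemma dig_succ {b B : ℕ} (hb : 1 < b) {f : ℕ → ℕ} (hf : ∀ k, f k ≤ B) :
    dig b f = (dig b (fun k => f (k + 1)) + f 0) / b := by
  have hb' : (b : ℝ) ≠ 0 := by positivity
  unfold dig
  rw [(dig_summable hb hf).tsum_eq_zero_add, zero_add, pow_one, add_div, add_comm, ← tsum_div_const]
  congr 1
  apply tsum_congr
  intro k
  rw [pow_succ, div_div]

/-- the coding map -/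
noncomputable def code (m n : ℕ) (D : Finset (ℕ × ℕ)) (ω : ℕ → D) : E2 :=
  !₂[dig m fun k => (ω k).1.1, dig n fun k => (ω k).1.2]

lemma code_zero (m n : ℕ) (D : Finset (ℕ × ℕ)) (ω : ℕ → D) :
    code m n D ω 0 = dig m fun k => (ω k).1.1 := by simp [code]

lemma code_one (m n : ℕ) (D : Finset (ℕ × ℕ)) (ω : ℕ → D) :
    code m n D ω 1 = dig n fun k => (ω k).1.2 := by simp [code]

lemma le_sup_fst (D : Finset (ℕ × ℕ)) (d : D) : d.1.1 ≤ D.sup Prod.fst :=
  Finset.le_sup (f := Prod.fst) d.2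

lemma le_sup_snd (D : Finset (ℕ × ℕ)) (d : D) : d.1.2 ≤ D.sup Prod.snd :=
  Finset.le_sup (f := Prod.snd) d.2

lemma continuous_code {m n : ℕ} (hm : 1 < m) (hn : 1 < n) (D : Finset (ℕ × ℕ)) :
    Continuous (code m n D) := by
  have h0 : Continuous fun ω : ℕ → D => dig m fun k => (ω k).1.1 := by
    refine continuous_tsum ?_ (summable_bound hm (D.sup Prod.fst)) ?_
    · intro k
      have h1 : Continuous fun d : D => ((d.1.1 : ℕ) : ℝ) / (m : ℝ) ^ (k + 1) :=
        continuous_of_discreteTopology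
      exact h1.comp (continuous_apply k)
    · intro k ω
      exact dig_bound (f := fun k => (ω k).1.1) (fun k => le_sup_fst D (ω k)) k
  have h1 : Continuous fun ω : ℕ → D => dig n fun k => (ω k).1.2 := by
    refine continuous_tsum ?_ (summable_bound hn (D.sup Prod.snd)) ?_
    · intro k
      have h1 : Continuous fun d : D => ((d.1.2 : ℕ) : ℝ) / (n : ℝ) ^ (k + 1) :=
        continuous_of_discreteTopology
      exact h1.comp (continuous_apply k)
    · intro k ω
      exact dig_bound (f := fun k => (ω k).1.2) (fun k => le_sup_snd D (ω k)) k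
  unfold code
  refine (PiLp.continuous_toLp 2 (fun _ : Fin 2 => ℝ)).comp (continuous_pi ?_)
  intro i
  fin_cases i
  · exact h0
  · exact h1

lemma code_cons {m n : ℕ} (hm : 1 < m) (hn : 1 < n) (D : Finset (ℕ × ℕ)) (ω : ℕ → D) :
    code m n D ω = cellMap m n (ω 0).1 (code m n D fun k => ω (k + 1)) := by
  ext i
  fin_cases i
  · show code m n D ω 0 = cellMap m n (ω 0).1 (code m n D fun k => ω (k + 1)) 0
    rw [cellMap_zero, code_zero, code_zero]
    exact dig_succ hm (fun k => le_sup_fst D (ω k))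
  · show code m n D ω 1 = cellMap m n (ω 0).1 (code m n D fun k => ω (k + 1)) 1
    rw [cellMap_one, code_one, code_one]
    exact dig_succ hn (fun k => le_sup_snd D (ω k))

/-- **The carpet exists.** -/
theorem exists_carpet {m n : ℕ} (hm : 1 < m) (hn : 1 < n) {D : Finset (ℕ × ℕ)}
    (hD : D.Nonempty) : ∃ F, IsCarpet m n D F := by
  obtain ⟨d0, hd0⟩ := hD
  refine ⟨Set.range (code m n D), isCompact_range (continuous_code hm hn D),
    ⟨_, Set.mem_range_self fun _ => ⟨d0, hd0⟩⟩, ?_⟩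
  ext z
  simp only [Set.mem_range, Set.mem_iUnion, Set.mem_image]
  constructor
  · rintro ⟨ω, rfl⟩
    exact ⟨(ω 0).1, (ω 0).2, code m n D fun k => ω (k + 1), ⟨_, rfl⟩,
      (code_cons hm hn D ω).symm⟩
  · rintro ⟨d, hd, z', ⟨ω, rfl⟩, rfl⟩
    refine ⟨fun k => Nat.casesOn k ⟨d, hd⟩ ω, ?_⟩
    rw [code_cons hm hn D]
    rfl

end Pool.Agent.W710.Tube
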