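import Mathlib

/-!
Counting words of a planar carpet with `3` columns and `9` rows: basic facts.
-/

set_option autoImplicit false

namespace Pool.Agent.W710.Tube

open Finset

/-- The positions `(u, v)` of the rectangles of level `k`. -/
def Adm (D : Finset (ℕ × ℕ)) : ℕ → Finset (ℕ × ℕ)
  | 0 => {(0, 0)}
  | k + 1 => (Adm D k ×ˢ D).image fun p => (3 * p.1.1 + p.2.1, 9 * p.1.2 + p.2.2)

/-- at most two cells per row, at most six cells per column, at most eighteen cells -/
structure Good (D : Finset (ℕ × ℕ)) : Prop where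
  sub : ∀ p ∈ D, p.1 < 3 ∧ p.2 < 9
  row : ∀ j, (D.filter fun p => p.2 = j).card ≤ 2
  col : ∀ i, (D.filter fun p => p.1 = i).card ≤ 6
  tot : D.card ≤ 18

variable {D : Finset (ℕ × ℕ)}

lemma mem_zero (p : ℕ × ℕ) : p ∈ Adm D 0 ↔ p = (0, 0) := by simp [Adm]

lemma mem_succ (hD : Good D) (k : ℕ) (p : ℕ × ℕ) :
    p ∈ Adm D (k + 1) ↔ (p.1 / 3, p.2 / 9) ∈ Adm D k ∧ (p.1 % 3, p.2 % 9) ∈ D := by
  rw [show Adm D (k + 1) = (Adm D k ×ˢ D).image
    (fun p => (3 * p.1.1 + p.2.1, 9 * p.1.2 + p.2.2)) from rfl, mem_image]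
  constructor
  · rintro ⟨⟨q, d⟩, hq, rfl⟩
    rw [mem_product] at hq
    obtain ⟨h1, h2⟩ := hq
    have h3 := hD.sub d h2
    simp only at h1 h2 ⊢
    have e1 : (3 * q.1 + d.1) / 3 = q.1 := by omega
    have e2 : (9 * q.2 + d.2) / 9 = q.2 := by omega
    have e3 : (3 * q.1 + d.1) % 3 = d.1 := by omega
    have e4 : (9 * q.2 + d.2) % 9 = d.2 := by omega
    rw [e1, e2, e3, e4]
    exact ⟨h1, h2⟩
  · rintro ⟨h1, h2⟩
    refine ⟨((p.1 / 3, p.2 / 9), (p.1 % 3, p.2 % 9)), ?_, ?_⟩
    · rw [mem_product]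
      exact ⟨h1, h2⟩
    · ext
      · simp only; omega
      · simp only; omega

lemma mem_lt (hD : Good D) (k : ℕ) : ∀ p ∈ Adm D k, p.1 < 3 ^ k ∧ p.2 < 9 ^ k := by
  induction k with
  | zero =>
    intro p hp
    rw [mem_zero] at hp
    subst hp
    simp
  | succ k ih =>
    intro p hp
    rw [mem_succ hD] at hp
    obtain ⟨h1, h2⟩ := ih _ hp.1
    simp only at h1 h2
    rw [pow_succ, pow_succ]
    omega

lemma mem_anc (hD : Good D) (b r : ℕ) : ∀ p ∈ Adm D (b + r),
    (p.1 / 3 ^ r, p.2 / 9 ^ r) ∈ Adm D b := by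
  induction r with
  | zero =>
    intro p hp
    simpa using hp
  | succ r ih =>
    intro p hp
    rw [← add_assoc, mem_succ hD] at hp
    have := ih _ hp.1
    simp only [Nat.div_div_eq_div_mul] at this
    rw [pow_succ', pow_succ']
    exact this

lemma mem_tail (hD : Good D) (b r : ℕ) : ∀ p ∈ Adm D (b + r),
    (p.1 % 3 ^ r, p.2 % 9 ^ r) ∈ Adm D r := by
  induction r with
  | zero =>
    intro p _
    rw [mem_zero]
    simp [Nat.mod_one]
  | succ r ih =>
    intro p hp
    rw [← add_assoc, mem_succ hD] at hp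
    have h1 := ih _ hp.1
    rw [mem_succ hD]
    simp only at h1 ⊢
    have e1 : p.1 % 3 ^ (r + 1) / 3 = p.1 / 3 % 3 ^ r := by
      rw [pow_succ', Nat.mod_mul_right_div_self]
    have e2 : p.2 % 9 ^ (r + 1) / 9 = p.2 / 9 % 9 ^ r := by
      rw [pow_succ', Nat.mod_mul_right_div_self]
    have e3 : p.1 % 3 ^ (r + 1) % 3 = p.1 % 3 :=
      Nat.mod_mod_of_dvd _ (dvd_pow_self 3 (Nat.succ_ne_zero r))
    have e4 : p.2 % 9 ^ (r + 1) % 9 = p.2 % 9 :=
      Nat.mod_mod_of_dvd _ (dvd_pow_self 9 (Nat.succ_ne_zero r))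
    rw [e1, e2, e3, e4]
    exact ⟨h1, hp.2⟩

/-! ### fibres of the parent map -/

lemma fiber_col (hD : Good D) (k u v : ℕ) (s : Finset (ℕ × ℕ)) (hs : s ⊆ Adm D (k + 1))
    (h1 : ∀ p ∈ s, p.1 = u) (h2 : ∀ p ∈ s, p.2 / 9 = v) : s.card ≤ 6 := by
  refine le_trans ?_ (hD.col (u % 3))
  refine card_le_card_of_injOn (fun p => (p.1 % 3, p.2 % 9)) ?_ ?_
  · intro p hp
    have hp' := hs hp
    rw [mem_succ hD] at hp'
    rw [mem_coe, mem_filter]
    refine ⟨hp'.2, ?_⟩
    have := h1 p hp
    simp only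
    rw [this]
  · intro p hp q hq hpq
    simp only [Prod.mk.injEq] at hpq
    have a1 := h1 p hp
    have a2 := h1 q hq
    have a3 := h2 p hp
    have a4 := h2 q hq
    ext
    · omega
    · omega

lemma fiber_row (hD : Good D) (k u v : ℕ) (s : Finset (ℕ × ℕ)) (hs : s ⊆ Adm D (k + 1))
    (h1 : ∀ p ∈ s, p.1 / 3 = u) (h2 : ∀ p ∈ s, p.2 = v) : s.card ≤ 2 := by
  refine le_trans ?_ (hD.row (v % 9))
  refine card_le_card_of_injOn (fun p => (p.1 % 3, p.2 % 9)) ?_ ?_
  · intro p hp
    have hp' := hs hp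
    rw [mem_succ hD] at hp'
    rw [mem_coe, mem_filter]
    refine ⟨hp'.2, ?_⟩
    have := h2 p hp
    simp only
    rw [this]
  · intro p hp q hq hpq
    simp only [Prod.mk.injEq] at hpq
    have a1 := h1 p hp
    have a2 := h1 q hq
    have a3 := h2 p hp
    have a4 := h2 q hq
    ext
    · omega
    · omega

lemma fiber_all (hD : Good D) (k u v : ℕ) (s : Finset (ℕ × ℕ)) (hs : s ⊆ Adm D (k + 1))
    (h1 : ∀ p ∈ s, p.1 / 3 = u) (h2 : ∀ p ∈ s, p.2 / 9 = v) : s.card ≤ 18 := by
  refine le_trans ?_ hD.tot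
  refine card_le_card_of_injOn (fun p => (p.1 % 3, p.2 % 9)) ?_ ?_
  · intro p hp
    have hp' := hs hp
    rw [mem_succ hD] at hp'
    exact hp'.2
  · intro p hp q hq hpq
    simp only [Prod.mk.injEq] at hpq
    have a1 := h1 p hp
    have a2 := h1 q hq
    have a3 := h2 p hp
    have a4 := h2 q hq
    ext
    · omega
    · omega

lemma desc_col (hD : Good D) (b r : ℕ) : ∀ (u v : ℕ) (s : Finset (ℕ × ℕ)), s ⊆ Adm D (b + r) →
    (∀ p ∈ s, p.1 = u) → (∀ p ∈ s, p.2 / 9 ^ r = v) → s.card ≤ 6 ^ r := by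
  induction r with
  | zero =>
    intro u v s _ h1 h2
    rw [pow_zero, card_le_one]
    intro p hp q hq
    have a1 := h1 p hp
    have a2 := h1 q hq
    have a3 := h2 p hp
    have a4 := h2 q hq
    simp only [pow_zero, Nat.div_one] at a3 a4
    ext
    · omega
    · omega
  | succ r ih =>
    intro u v s hs h1 h2
    have hi : (s.image fun p => (p.1 / 3, p.2 / 9)).card ≤ 6 ^ r := by
      apply ih (u / 3) v
      · intro q hq
        rw [mem_image] at hq
        obtain ⟨p, hp, rfl⟩ := hq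
        have := hs hp
        rw [← add_assoc, mem_succ hD] at this
        exact this.1
      · intro q hq
        rw [mem_image] at hq
        obtain ⟨p, hp, rfl⟩ := hq
        simp only
        rw [h1 p hp]
      · intro q hq
        rw [mem_image] at hq
        obtain ⟨p, hp, rfl⟩ := hq
        simp only
        rw [Nat.div_div_eq_div_mul, ← pow_succ']
        exact h2 p hp
    have hf := card_le_mul_card_image (f := fun p : ℕ × ℕ => (p.1 / 3, p.2 / 9)) s 6 (by
      intro q _
      refine fiber_col hD (b + r) u q.2 _ ?_ ?_ ?_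
      · intro p hp
        rw [mem_filter] at hp
        exact hs hp.1
      · intro p hp
        rw [mem_filter] at hp
        exact h1 p hp.1
      · intro p hp
        rw [mem_filter] at hp
        rw [← hp.2])
    calc s.card ≤ 6 * _ := hf
      _ ≤ 6 * 6 ^ r := Nat.mul_le_mul_left _ hi
      _ = 6 ^ (r + 1) := by rw [pow_succ']

lemma desc_row (hD : Good D) (b r : ℕ) : ∀ (u v : ℕ) (s : Finset (ℕ × ℕ)), s ⊆ Adm D (b + r) →
    (∀ p ∈ s, p.1 / 3 ^ r = u) → (∀ p ∈ s, p.2 = v) → s.card ≤ 2 ^ r := by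
  induction r with
  | zero =>
    intro u v s _ h1 h2
    rw [pow_zero, card_le_one]
    intro p hp q hq
    have a1 := h1 p hp
    have a2 := h1 q hq
    have a3 := h2 p hp
    have a4 := h2 q hq
    simp only [pow_zero, Nat.div_one] at a1 a2
    ext
    · omega
    · omega
  | succ r ih =>
    intro u v s hs h1 h2
    have hi : (s.image fun p => (p.1 / 3, p.2 / 9)).card ≤ 2 ^ r := by
      apply ih u (v / 9)
      · intro q hq
        rw [mem_image] at hq
        obtain ⟨p, hp, rfl⟩ := hq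
        have := hs hp
        rw [← add_assoc, mem_succ hD] at this
        exact this.1
      · intro q hq
        rw [mem_image] at hq
        obtain ⟨p, hp, rfl⟩ := hq
        simp only
        rw [Nat.div_div_eq_div_mul, ← pow_succ']
        exact h1 p hp
      · intro q hq
        rw [mem_image] at hq
        obtain ⟨p, hp, rfl⟩ := hq
        simp only
        rw [h2 p hp]
    have hf := card_le_mul_card_image (f := fun p : ℕ × ℕ => (p.1 / 3, p.2 / 9)) s 2 (by
      intro q _
      refine fiber_row hD (b + r) q.1 v _ ?_ ?_ ?_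
      · intro p hp
        rw [mem_filter] at hp
        exact hs hp.1
      · intro p hp
        rw [mem_filter] at hp
        rw [← hp.2]
      · intro p hp
        rw [mem_filter] at hp
        exact h2 p hp.1)
    calc s.card ≤ 2 * _ := hf
      _ ≤ 2 * 2 ^ r := Nat.mul_le_mul_left _ hi
      _ = 2 ^ (r + 1) := by rw [pow_succ']

lemma desc_all (hD : Good D) (b r : ℕ) : ∀ (u v : ℕ) (s : Finset (ℕ × ℕ)), s ⊆ Adm D (b + r) →
    (∀ p ∈ s, p.1 / 3 ^ r = u) → (∀ p ∈ s, p.2 / 9 ^ r = v) → s.card ≤ 18 ^ r := by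
  induction r with
  | zero =>
    intro u v s _ h1 h2
    rw [pow_zero, card_le_one]
    intro p hp q hq
    have a1 := h1 p hp
    have a2 := h1 q hq
    have a3 := h2 p hp
    have a4 := h2 q hq
    simp only [pow_zero, Nat.div_one] at a1 a2 a3 a4
    ext
    · omega
    · omega
  | succ r ih =>
    intro u v s hs h1 h2
    have hi : (s.image fun p => (p.1 / 3, p.2 / 9)).card ≤ 18 ^ r := by
      apply ih u v
      · intro q hq
        rw [mem_image] at hq
        obtain ⟨p, hp, rfl⟩ := hq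
        have := hs hp
        rw [← add_assoc, mem_succ hD] at this
        exact this.1
      · intro q hq
        rw [mem_image] at hq
        obtain ⟨p, hp, rfl⟩ := hq
        simp only
        rw [Nat.div_div_eq_div_mul, ← pow_succ']
        exact h1 p hp
      · intro q hq
        rw [mem_image] at hq
        obtain ⟨p, hp, rfl⟩ := hq
        simp only
        rw [Nat.div_div_eq_div_mul, ← pow_succ']
        exact h2 p hp
    have hf := card_le_mul_card_image (f := fun p : ℕ × ℕ => (p.1 / 3, p.2 / 9)) s 18 (by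
      intro q _
      refine fiber_all hD (b + r) q.1 q.2 _ ?_ ?_ ?_
      · intro p hp
        rw [mem_filter] at hp
        exact hs hp.1
      · intro p hp
        rw [mem_filter] at hp
        rw [← hp.2]
      · intro p hp
        rw [mem_filter] at hp
        rw [← hp.2])
    calc s.card ≤ 18 * _ := hf
      _ ≤ 18 * 18 ^ r := Nat.mul_le_mul_left _ hi
      _ = 18 ^ (r + 1) := by rw [pow_succ']

lemma card_Adm_le (hD : Good D) (k : ℕ) : (Adm D k).card ≤ 18 ^ k := by
  have h := desc_all hD 0 k 0 0 (Adm D k) (by rw [Nat.zero_add]) (by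
    intro p hp
    exact Nat.div_eq_of_lt (mem_lt hD k p hp).1) (by
    intro p hp
    exact Nat.div_eq_of_lt (mem_lt hD k p hp).2)
  exact h

/-! ### integers in short intervals -/

lemma card_le_nat (s : Finset ℕ) (n : ℕ) (h : ∀ a ∈ s, ∀ b ∈ s, (b : ℝ) - a < n) :
    s.card ≤ n := by
  rcases s.eq_empty_or_nonempty with rfl | hs
  · simp
  · have h1 : s ⊆ Icc (s.min' hs) (s.max' hs) := by
      intro a ha
      rw [mem_Icc]
      exact ⟨min'_le _ _ ha, le_max' _ _ ha⟩
    have h2 := card_le_card h1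
    rw [Nat.card_Icc] at h2
    have h3 := h _ (s.min'_mem hs) _ (s.max'_mem hs)
    have h4 : (s.min' hs) ≤ s.max' hs := min'_le _ _ (s.max'_mem hs)
    have h5 : s.max' hs < n + s.min' hs := by
      have : ((s.max' hs : ℕ) : ℝ) < ((n + s.min' hs : ℕ) : ℝ) := by
        push_cast
        linarith
      exact_mod_cast this
    omega

lemma card_le_real (s : Finset ℕ) (L : ℝ) (hL : 0 ≤ L) (h : ∀ a ∈ s, ∀ b ∈ s, (b : ℝ) - a < L) :
    (s.card : ℝ) ≤ L + 1 := by
  rcases s.eq_empty_or_nonempty with rfl | hs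
  · simp
    linarith
  · have h1 : s ⊆ Icc (s.min' hs) (s.max' hs) := by
      intro a ha
      rw [mem_Icc]
      exact ⟨min'_le _ _ ha, le_max' _ _ ha⟩
    have h2 := card_le_card h1
    rw [Nat.card_Icc] at h2
    have h3 := h _ (s.min'_mem hs) _ (s.max'_mem hs)
    have h4 : (s.min' hs) ≤ s.max' hs := min'_le _ _ (s.max'_mem hs)
    have h5 : s.card + s.min' hs ≤ s.max' hs + 1 := by omega
    have h6 : ((s.card + s.min' hs : ℕ) : ℝ) ≤ ((s.max' hs + 1 : ℕ) : ℝ) := by exact_mod_cast h5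
    push_cast at h6
    linarith

end Pool.Agent.W710.Tube
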