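import Pool.Agent.W710.Tube.Key

/-!
The carpet with `3` columns, `9` rows and the cells `(i, j)`, `i ≠ j mod 3`.
-/

set_option autoImplicit false

namespace Pool.Agent.W710.Tube

open Finset

/-- the plane -/
abbrev E2 := EuclideanSpace ℝ (Fin 2)

/-- The affine contraction `(x, y) ↦ ((x + i) / m, (y + j) / n)`, `d = (i, j)`. -/
noncomputable def cellMap (m n : ℕ) (d : ℕ × ℕ) (z : E2) : E2 :=
  !₂[(z 0 + d.1) / m, (z 1 + d.2) / n]

/-- `F` is the Bedford-McMullen carpet `F(m, n, D)`. -/
def IsCarpet (m n : ℕ) (D : Finset (ℕ × ℕ)) (F : Set E2) : Prop :=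
  IsCompact F ∧ F.Nonempty ∧ F = ⋃ d ∈ D, cellMap m n d '' F

/-- the cells `(i, j)` of the `3 × 9` grid with `i ≢ j (mod 3)` -/
def digits : Finset (ℕ × ℕ) := (range 3 ×ˢ range 9).filter fun d => d.1 ≠ d.2 % 3

/-- the reflected cells -/
def digits' : Finset (ℕ × ℕ) := (range 3 ×ˢ range 9).filter fun d => d.1 ≠ (8 - d.2) % 3

lemma good_digits : Good digits := by
  have hlt : ∀ p ∈ digits, p.1 < 3 ∧ p.2 < 9 := by decide
  refine ⟨hlt, ?_, ?_, by decide⟩
  · intro j
    rcases Nat.lt_or_ge j 9 with h | h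
    · have : ∀ j < 9, (digits.filter fun p => p.2 = j).card ≤ 2 := by decide
      exact this j h
    · have : (digits.filter fun p => p.2 = j) = ∅ := by
        rw [filter_eq_empty_iff]
        intro p hp
        have := hlt p hp
        omega
      rw [this]
      simp
  · intro i
    rcases Nat.lt_or_ge i 3 with h | h
    · have : ∀ i < 3, (digits.filter fun p => p.1 = i).card ≤ 6 := by decide
      exact this i h
    · have : (digits.filter fun p => p.1 = i) = ∅ := by
        rw [filter_eq_empty_iff]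
        intro p hp
        have := hlt p hp
        omega
      rw [this]
      simp

lemma good_digits' : Good digits' := by
  have hlt : ∀ p ∈ digits', p.1 < 3 ∧ p.2 < 9 := by decide
  refine ⟨hlt, ?_, ?_, by decide⟩
  · intro j
    rcases Nat.lt_or_ge j 9 with h | h
    · have : ∀ j < 9, (digits'.filter fun p => p.2 = j).card ≤ 2 := by decide
      exact this j h
    · have : (digits'.filter fun p => p.2 = j) = ∅ := by
        rw [filter_eq_empty_iff]
        intro p hp
        have := hlt p hp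
        omega
      rw [this]
      simp
  · intro i
    rcases Nat.lt_or_ge i 3 with h | h
    · have : ∀ i < 3, (digits'.filter fun p => p.1 = i).card ≤ 6 := by decide
      exact this i h
    · have : (digits'.filter fun p => p.1 = i) = ∅ := by
        rw [filter_eq_empty_iff]
        intro p hp
        have := hlt p hp
        omega
      rw [this]
      simp

lemma card_digits : digits.card = 18 := by decide

lemma card_Adm (k : ℕ) : (Adm digits k).card = 18 ^ k := by
  induction k with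
  | zero => simp [Adm]
  | succ k ih =>
    rw [show Adm digits (k + 1) = (Adm digits k ×ˢ digits).image
      (fun p => (3 * p.1.1 + p.2.1, 9 * p.1.2 + p.2.2)) from rfl, card_image_of_injOn,
      card_product, ih, card_digits, pow_succ]
    rintro ⟨p, d⟩ hp ⟨q, e⟩ hq hpq
    rw [mem_coe, mem_product] at hp hq
    have h1 := good_digits.sub d hp.2
    have h2 := good_digits.sub e hq.2
    simp only [Prod.mk.injEq] at hpq
    ext
    · simp only; omega
    · simp only; omega
    · simp only; omega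
    · simp only; omega

/-- reflection of the words -/
lemma reflect (k : ℕ) : ∀ p ∈ Adm digits k, (p.1, 9 ^ k - 1 - p.2) ∈ Adm digits' k := by
  induction k with
  | zero =>
    intro p hp
    rw [mem_zero] at hp ⊢
    subst hp
    simp
  | succ k ih =>
    intro p hp
    have hlt := (mem_lt good_digits (k + 1) p hp).2
    rw [mem_succ good_digits] at hp
    rw [mem_succ good_digits']
    have h1 := ih _ hp.1
    have hlt1 := (mem_lt good_digits k _ hp.1).2
    simp only at h1 hlt1 ⊢
    have e1 : (9 ^ (k + 1) - 1 - p.2) / 9 = 9 ^ k - 1 - p.2 / 9 := by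
      rw [pow_succ]
      omega
    have e2 : (9 ^ (k + 1) - 1 - p.2) % 9 = 8 - p.2 % 9 := by
      rw [pow_succ]
      omega
    rw [e1, e2]
    refine ⟨h1, ?_⟩
    have key : ∀ d ∈ digits, (d.1, 8 - d.2) ∈ digits' := by decide
    exact key _ hp.2

/-! ### points of the carpet -/

lemma cellMap_zero (m n : ℕ) (d : ℕ × ℕ) (z : E2) : cellMap m n d z 0 = (z 0 + d.1) / m := by
  simp [cellMap]

lemma cellMap_one (m n : ℕ) (d : ℕ × ℕ) (z : E2) : cellMap m n d z 1 = (z 1 + d.2) / n := by
  simp [cellMap]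

lemma carpet_bounds {F : Set E2} (hF : IsCarpet 3 9 digits F) :
    ∀ z ∈ F, (0 ≤ z 0 ∧ z 0 ≤ 1) ∧ (0 ≤ z 1 ∧ z 1 ≤ 1) := by
  obtain ⟨hc, hne, hinv⟩ := hF
  have hdec : ∀ z ∈ F, ∃ z' ∈ F, ∃ d ∈ digits, z = cellMap 3 9 d z' := by
    intro z hz
    rw [hinv] at hz
    simp only [Set.mem_iUnion, Set.mem_image] at hz
    obtain ⟨d, hd, z', hz', h⟩ := hz
    exact ⟨z', hz', d, hd, h.symm⟩
  have hcont : ∀ i : Fin 2, ContinuousOn (fun z : E2 => z i) F := fun i =>
    (EuclideanSpace.proj (𝕜 := ℝ) i).continuous.continuousOn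
  have hup : ∀ z ∈ F, z 0 ≤ 1 := by
    obtain ⟨y, hy, hmax⟩ := hc.exists_isMaxOn hne (hcont 0)
    have h1 : y 0 ≤ 1 := by
      obtain ⟨z', hz', d, hd, h⟩ := hdec y hy
      have h2 : z' 0 ≤ y 0 := hmax hz'
      have h3 := congrArg (fun z : E2 => z 0) h
      simp only [cellMap_zero] at h3
      have h4 : (d.1 : ℝ) ≤ 2 := by exact_mod_cast (by have := (good_digits.sub d hd).1; omega)
      push_cast at h3
      linarith
    intro z hz
    exact (hmax hz).trans h1
  have hup1 : ∀ z ∈ F, z 1 ≤ 1 := by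
    obtain ⟨y, hy, hmax⟩ := hc.exists_isMaxOn hne (hcont 1)
    have h1 : y 1 ≤ 1 := by
      obtain ⟨z', hz', d, hd, h⟩ := hdec y hy
      have h2 : z' 1 ≤ y 1 := hmax hz'
      have h3 := congrArg (fun z : E2 => z 1) h
      simp only [cellMap_one] at h3
      have h4 : (d.2 : ℝ) ≤ 8 := by exact_mod_cast (by have := (good_digits.sub d hd).2; omega)
      push_cast at h3
      linarith
    intro z hz
    exact (hmax hz).trans h1
  have hlo : ∀ z ∈ F, 0 ≤ z 0 := by
    obtain ⟨y, hy, hmin⟩ := hc.exists_isMinOn hne (hcont 0)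
    have h1 : 0 ≤ y 0 := by
      obtain ⟨z', hz', d, hd, h⟩ := hdec y hy
      have h2 : y 0 ≤ z' 0 := hmin hz'
      have h3 := congrArg (fun z : E2 => z 0) h
      simp only [cellMap_zero] at h3
      have h4 : (0 : ℝ) ≤ (d.1 : ℝ) := Nat.cast_nonneg _
      push_cast at h3
      linarith
    intro z hz
    exact h1.trans (hmin hz)
  have hlo1 : ∀ z ∈ F, 0 ≤ z 1 := by
    obtain ⟨y, hy, hmin⟩ := hc.exists_isMinOn hne (hcont 1)
    have h1 : 0 ≤ y 1 := by
      obtain ⟨z', hz', d, hd, h⟩ := hdec y hy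
      have h2 : y 1 ≤ z' 1 := hmin hz'
      have h3 := congrArg (fun z : E2 => z 1) h
      simp only [cellMap_one] at h3
      have h4 : (0 : ℝ) ≤ (d.2 : ℝ) := Nat.cast_nonneg _
      push_cast at h3
      linarith
    intro z hz
    exact h1.trans (hmin hz)
  intro z hz
  exact ⟨⟨hlo z hz, hup z hz⟩, ⟨hlo1 z hz, hup1 z hz⟩⟩

/-- the point of the rectangle `(u, v)` of level `k` that corresponds to `z` -/
noncomputable def pt (k : ℕ) (z : E2) (p : ℕ × ℕ) : E2 :=
  !₂[(z 0 + p.1) / 3 ^ k, (z 1 + p.2) / 9 ^ k]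

lemma pt_zero (k : ℕ) (z : E2) (p : ℕ × ℕ) : pt k z p 0 = (z 0 + p.1) / 3 ^ k := by
  simp [pt]

lemma pt_one (k : ℕ) (z : E2) (p : ℕ × ℕ) : pt k z p 1 = (z 1 + p.2) / 9 ^ k := by
  simp [pt]

lemma pt_mem {F : Set E2} (hF : IsCarpet 3 9 digits F) (k : ℕ) :
    ∀ z ∈ F, ∀ p ∈ Adm digits k, pt k z p ∈ F := by
  induction k with
  | zero =>
    intro z hz p hp
    rw [mem_zero] at hp
    subst hp
    have : pt 0 z (0, 0) = z := by
      ext i
      fin_cases i
      · simp [pt]
      · simp [pt]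
    rw [this]
    exact hz
  | succ k ih =>
    intro z hz p hp
    rw [mem_succ good_digits] at hp
    have h1 : cellMap 3 9 (p.1 % 3, p.2 % 9) z ∈ F := by
      have h2 := hF.2.2
      rw [h2]
      simp only [Set.mem_iUnion, Set.mem_image]
      exact ⟨_, hp.2, z, hz, rfl⟩
    have h3 := ih _ h1 _ hp.1
    have h4 : pt k (cellMap 3 9 (p.1 % 3, p.2 % 9) z) (p.1 / 3, p.2 / 9) = pt (k + 1) z p := by
      have e1 : (p.1 : ℝ) = 3 * ((p.1 / 3 : ℕ) : ℝ) + ((p.1 % 3 : ℕ) : ℝ) := by
        exact_mod_cast (Nat.div_add_mod p.1 3).symm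
      have e2 : (p.2 : ℝ) = 9 * ((p.2 / 9 : ℕ) : ℝ) + ((p.2 % 9 : ℕ) : ℝ) := by
        exact_mod_cast (Nat.div_add_mod p.2 9).symm
      ext i
      fin_cases i
      · show pt k (cellMap 3 9 (p.1 % 3, p.2 % 9) z) (p.1 / 3, p.2 / 9) 0 = pt (k + 1) z p 0
        rw [pt_zero, pt_zero, cellMap_zero]
        simp only
        rw [e1, pow_succ]
        push_cast
        field_simp
        rw [← e1]
        rw [e1]
        ring
      · show pt k (cellMap 3 9 (p.1 % 3, p.2 % 9) z) (p.1 / 3, p.2 / 9) 1 = pt (k + 1) z p 1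
        rw [pt_one, pt_one, cellMap_one]
        simp only
        rw [e2, pow_succ]
        push_cast
        field_simp
        rw [← e2]
        rw [e2]
        ring
    rw [← h4]
    exact h3

end Pool.Agent.W710.Tube
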