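import Pool.Agent.W710.Tube.Carpet

/-!
Counting points of the carpet in strips and covering the carpet by strips.
-/

set_option autoImplicit false

namespace Pool.Agent.W710.Tube

open Finset

lemma meet_of_mem {α β t w x y : ℝ} {k : ℕ} {p : ℕ × ℕ} (hα : 0 ≤ α) (hβ : 0 ≤ β)
    (hx : 0 ≤ x) (hx1 : x ≤ 1) (hy : 0 ≤ y) (hy1 : y ≤ 1)
    (h : |α * ((x + p.1) / 3 ^ k) + β * ((y + p.2) / 9 ^ k) - t| < w) : Meet α β t w k p := by
  rw [abs_lt] at h
  have a1 : (p.1 : ℝ) / 3 ^ k ≤ (x + p.1) / 3 ^ k := by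
    apply div_le_div_of_nonneg_right _ (by positivity)
    linarith
  have a2 : (x + p.1) / 3 ^ k ≤ ((p.1 : ℝ) + 1) / 3 ^ k := by
    apply div_le_div_of_nonneg_right _ (by positivity)
    linarith
  have b1 : (p.2 : ℝ) / 9 ^ k ≤ (y + p.2) / 9 ^ k := by
    apply div_le_div_of_nonneg_right _ (by positivity)
    linarith
  have b2 : (y + p.2) / 9 ^ k ≤ ((p.2 : ℝ) + 1) / 9 ^ k := by
    apply div_le_div_of_nonneg_right _ (by positivity)
    linarith
  have a1' := mul_le_mul_of_nonneg_left a1 hα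
  have a2' := mul_le_mul_of_nonneg_left a2 hα
  have b1' := mul_le_mul_of_nonneg_left b1 hβ
  have b2' := mul_le_mul_of_nonneg_left b2 hβ
  constructor
  · linarith
  · linarith

open Classical in
/-- the level `k` copies of the point `z` inside the strip -/
noncomputable def InStrip (α β t w : ℝ) (k : ℕ) (z : E2) : Finset (ℕ × ℕ) :=
  (Adm digits k).filter fun p => |α * pt k z p 0 + β * pt k z p 1 - t| < w

lemma mem_InStrip (α β t w : ℝ) (k : ℕ) (z : E2) (p : ℕ × ℕ) :
    p ∈ InStrip α β t w k z ↔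
      p ∈ Adm digits k ∧ |α * pt k z p 0 + β * pt k z p 1 - t| < w := by
  classical
  unfold InStrip
  exact mem_filter

/-- **A strip of half-width `w` contains at most `C w 18 ^ k` of the level `k` copies of a
point.** -/
theorem strip_count {z : E2} (hz : (0 ≤ z 0 ∧ z 0 ≤ 1) ∧ (0 ≤ z 1 ∧ z 1 ≤ 1)) {α β t w : ℝ}
    (h : (α = 1 ∧ |β| ≤ 1) ∨ (β = 1 ∧ |α| ≤ 1)) (hw : 0 < w) (k : ℕ) (hk : 1 ≤ 3 ^ k * w) :
    ((InStrip α β t w k z).card : ℝ) ≤ CC * w * 18 ^ k := by
  classical
  obtain ⟨⟨x0, x1⟩, y0, y1⟩ := hz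
  rcases le_or_gt 0 (α * β) with hs | hs
  · -- both coefficients are nonnegative
    have hab : 0 ≤ α ∧ 0 ≤ β := by
      rcases h with ⟨rfl, _⟩ | ⟨rfl, _⟩
      · exact ⟨zero_le_one, by linarith⟩
      · exact ⟨by linarith, zero_le_one⟩
    have h' : (α = 1 ∧ β ≤ 1) ∨ (β = 1 ∧ α ≤ 1) := by
      rcases h with ⟨h1, h2⟩ | ⟨h1, h2⟩
      · exact Or.inl ⟨h1, (le_abs_self _).trans h2⟩
      · exact Or.inr ⟨h1, (le_abs_self _).trans h2⟩
    refine le_trans ?_ (key good_digits hab.1 hab.2 h' hw k hk (t := t))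
    have : InStrip α β t w k z ⊆ M digits α β t w k := by
      intro p hp
      rw [mem_InStrip] at hp
      rw [mem_M]
      refine ⟨hp.1, ?_⟩
      have h1 := hp.2
      rw [pt_zero, pt_one] at h1
      exact meet_of_mem hab.1 hab.2 x0 x1 y0 y1 h1
    exact_mod_cast card_le_card this
  · -- opposite signs
    have h9 : ∀ p ∈ Adm digits k, ((9 ^ k - 1 - p.2 : ℕ) : ℝ) = 9 ^ k - 1 - p.2 := by
      intro p hp
      have := (mem_lt good_digits k p hp).2
      rw [Nat.cast_sub (by omega), Nat.cast_sub (by omega)]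
      push_cast
      ring
    have h9' : ∀ p ∈ Adm digits k, (1 - z 1 + ((9 ^ k - 1 - p.2 : ℕ) : ℝ)) / 9 ^ k
        = 1 - (z 1 + p.2) / 9 ^ k := by
      intro p hp
      rw [h9 p hp]
      field_simp
      ring
    have hinj : Set.InjOn (fun p : ℕ × ℕ => (p.1, 9 ^ k - 1 - p.2)) (InStrip α β t w k z) := by
      intro p hp q hq hpq
      rw [mem_coe, mem_InStrip] at hp hq
      have h1 := (mem_lt good_digits k p hp.1).2
      have h2 := (mem_lt good_digits k q hq.1).2
      simp only [Prod.mk.injEq] at hpq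
      ext
      · exact hpq.1
      · omega
    rcases h with ⟨rfl, hβ⟩ | ⟨rfl, hα⟩
    · rw [one_mul] at hs
      rw [abs_of_neg hs] at hβ
      refine le_trans ?_ (key good_digits' (zero_le_one) (by linarith : 0 ≤ -β)
        (Or.inl ⟨rfl, hβ⟩) hw k hk (t := t + -β))
      have hc : (InStrip 1 β t w k z).card ≤ (M digits' 1 (-β) (t + -β) w k).card := by
        refine card_le_card_of_injOn (fun p => (p.1, 9 ^ k - 1 - p.2)) ?_ hinj
        intro p hp
        rw [mem_coe, mem_InStrip] at hp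
        rw [mem_coe, mem_M]
        refine ⟨reflect k p hp.1, ?_⟩
        refine meet_of_mem (x := z 0) (y := 1 - z 1) zero_le_one (by linarith) x0 x1
          (by linarith) (by linarith) ?_
        have h1 := hp.2
        rw [pt_zero, pt_one] at h1
        simp only
        rw [h9' p hp.1]
        convert h1 using 2
        ring
      exact_mod_cast hc
    · rw [mul_one] at hs
      rw [abs_of_neg hs] at hα
      refine le_trans ?_ (key good_digits' (by linarith : 0 ≤ -α) (zero_le_one)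
        (Or.inr ⟨rfl, hα⟩) hw k hk (t := 1 - t))
      have hc : (InStrip α 1 t w k z).card ≤ (M digits' (-α) 1 (1 - t) w k).card := by
        refine card_le_card_of_injOn (fun p => (p.1, 9 ^ k - 1 - p.2)) ?_ hinj
        intro p hp
        rw [mem_coe, mem_InStrip] at hp
        rw [mem_coe, mem_M]
        refine ⟨reflect k p hp.1, ?_⟩
        refine meet_of_mem (x := z 0) (y := 1 - z 1) (by linarith) zero_le_one x0 x1
          (by linarith) (by linarith) ?_
        have h1 := hp.2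
        rw [pt_zero, pt_one] at h1
        simp only
        rw [h9' p hp.1]
        rw [← abs_neg] at h1
        convert h1 using 2
        ring
      exact_mod_cast hc

/-- the open strip -/
def Strip (α β t w : ℝ) : Set E2 := {z | |α * z 0 + β * z 1 - t| < w}

/-- normalised coefficients -/
def Norm (α β : ℝ) : Prop := (α = 1 ∧ |β| ≤ 1) ∨ (β = 1 ∧ |α| ≤ 1)

/-- finitely many strips that cover the carpet have total half-width at least `1 / C` -/
theorem finite_cover {F : Set E2} (hF : IsCarpet 3 9 digits F) {ι : Type*} (s : Finset ι)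
    (α β t w : ι → ℝ) (hN : ∀ i ∈ s, Norm (α i) (β i)) (hw : ∀ i ∈ s, 0 < w i)
    (hcov : F ⊆ ⋃ i ∈ s, Strip (α i) (β i) (t i) (w i)) : 1 / CC ≤ ∑ i ∈ s, w i := by
  classical
  have hCC := CC_ge
  obtain ⟨z, hz⟩ := hF.2.1
  have hzb := carpet_bounds hF z hz
  -- choose the level
  obtain ⟨k, hk⟩ : ∃ k : ℕ, ∀ i ∈ s, 1 ≤ 3 ^ k * w i := by
    have h1 : ∀ i ∈ s, ∃ k : ℕ, 1 / w i < 3 ^ k := fun i _ =>
      pow_unbounded_of_one_lt _ (by norm_num)
    choose! f hf using h1
    refine ⟨s.sup f, fun i hi => ?_⟩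
    have h2 := hf i hi
    have h3 : (3 : ℝ) ^ f i ≤ 3 ^ s.sup f :=
      pow_le_pow_right₀ (by norm_num) (Finset.le_sup hi)
    have h4 := hw i hi
    rw [div_lt_iff₀ h4] at h2
    have h5 := mul_le_mul_of_nonneg_right h3 h4.le
    linarith
  have h1 : Adm digits k ⊆ s.biUnion fun i => InStrip (α i) (β i) (t i) (w i) k z := by
    intro p hp
    have h2 := hcov (pt_mem hF k z hz p hp)
    simp only [Set.mem_iUnion] at h2
    obtain ⟨i, hi, h3⟩ := h2
    rw [mem_biUnion]
    exact ⟨i, hi, (mem_InStrip _ _ _ _ _ _ _).2 ⟨hp, h3⟩⟩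
  have h2 : ((Adm digits k).card : ℝ) ≤ ∑ i ∈ s, CC * w i * 18 ^ k := by
    have h3 := (card_le_card h1).trans card_biUnion_le
    calc ((Adm digits k).card : ℝ)
        ≤ ((∑ i ∈ s, (InStrip (α i) (β i) (t i) (w i) k z).card : ℕ) : ℝ) := by exact_mod_cast h3
      _ = ∑ i ∈ s, ((InStrip (α i) (β i) (t i) (w i) k z).card : ℝ) := by push_cast; rfl
      _ ≤ ∑ i ∈ s, CC * w i * 18 ^ k :=
          sum_le_sum fun i hi => strip_count hzb (hN i hi) (hw i hi) k (hk i hi)
  rw [card_Adm, ← sum_mul, ← mul_sum] at h2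
  push_cast at h2
  have h3 : (0 : ℝ) < 18 ^ k := by positivity
  have h4 : 1 ≤ CC * ∑ i ∈ s, w i := by
    by_contra hcon
    push Not at hcon
    have := mul_lt_mul_of_pos_right hcon h3
    linarith
  rw [div_le_iff₀ (by linarith)]
  linarith

lemma isOpen_strip (α β t w : ℝ) : IsOpen (Strip α β t w) := by
  have h0 : Continuous fun z : E2 => z 0 := (EuclideanSpace.proj (𝕜 := ℝ) 0).continuous
  have h1 : Continuous fun z : E2 => z 1 := (EuclideanSpace.proj (𝕜 := ℝ) 1).continuous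
  have : Continuous fun z : E2 => |α * z 0 + β * z 1 - t| := by fun_prop
  exact this.isOpen_preimage _ isOpen_Iio

/-- any family of strips that covers the carpet has total half-width at least `1 / C` -/
theorem strip_cover {F : Set E2} (hF : IsCarpet 3 9 digits F) {ι : Type*}
    (α β t w : ι → ℝ) (hN : ∀ i, Norm (α i) (β i)) (hw : ∀ i, 0 < w i)
    (hcov : F ⊆ ⋃ i, Strip (α i) (β i) (t i) (w i)) :
    ∃ s : Finset ι, 1 / CC ≤ ∑ i ∈ s, w i := by
  obtain ⟨s, hs⟩ := hF.1.elim_finite_subcover _ (fun i => isOpen_strip _ _ _ _) hcov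
  exact ⟨s, finite_cover hF s α β t w (fun i _ => hN i) (fun i _ => hw i) hs⟩

end Pool.Agent.W710.Tube
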