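import Pool.Agent.W710.Tube.Count

/-!
Neighbourhoods of lines and segments: they lie in strips, and their area is at least
width times length.
-/

set_option autoImplicit false

namespace Pool.Agent.W710.Tube

open MeasureTheory

lemma abs_sub_le_dist (z y : E2) (i : Fin 2) : |z i - y i| ≤ dist z y := by
  have := PiLp.dist_apply_le (p := 2) (β := fun _ : Fin 2 => ℝ) z y i
  rwa [Real.dist_eq] at this

lemma dist_le_add (z y : E2) : dist z y ≤ |z 0 - y 0| + |z 1 - y 1| := by
  rw [EuclideanSpace.dist_eq, Fin.sum_univ_two, Real.dist_eq, Real.dist_eq]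
  have h0 := abs_nonneg (z 0 - y 0)
  have h1 := abs_nonneg (z 1 - y 1)
  rw [Real.sqrt_le_left (by linarith)]
  nlinarith

lemma lineMap_coord (p q : E2) (r : ℝ) (i : Fin 2) :
    (AffineMap.lineMap p q r : E2) i = p i + r * (q i - p i) := by
  rw [AffineMap.lineMap_apply]
  simp [add_comm]

/-- the `ε`-neighbourhood of a line lies in a strip of half-width `2 ε` -/
lemma line_strip {p q : E2} (hpq : p ≠ q) (ε : ℝ) :
    ∃ α β t, Norm α β ∧
      Metric.thickening ε (line[ℝ, p, q] : Set E2) ⊆ Strip α β t (2 * ε) := by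
  have hne : q 0 - p 0 ≠ 0 ∨ q 1 - p 1 ≠ 0 := by
    by_contra hcon
    push Not at hcon
    apply hpq
    ext i
    fin_cases i
    · show p 0 = q 0
      linarith [hcon.1]
    · show p 1 = q 1
      linarith [hcon.2]
  rcases le_total |q 0 - p 0| |q 1 - p 1| with h | h
  · have h1 : q 1 - p 1 ≠ 0 := by
      rcases hne with h2 | h2
      · intro h3
        rw [h3, abs_zero] at h
        exact h2 (abs_eq_zero.1 (le_antisymm h (abs_nonneg _)))
      · exact h2
    have hβ : |-(q 0 - p 0) / (q 1 - p 1)| ≤ 1 := by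
      rw [abs_div, abs_neg, div_le_one (abs_pos.2 h1)]
      exact h
    refine ⟨1, -(q 0 - p 0) / (q 1 - p 1),
      p 0 + -(q 0 - p 0) / (q 1 - p 1) * p 1, Or.inl ⟨rfl, hβ⟩, ?_⟩
    intro z hz
    rw [Metric.mem_thickening_iff] at hz
    obtain ⟨y, hy, hd⟩ := hz
    rw [SetLike.mem_coe, mem_affineSpan_pair_iff_exists_lineMap_eq] at hy
    obtain ⟨r, rfl⟩ := hy
    have a0 := abs_sub_le_dist z (AffineMap.lineMap p q r) 0
    have a1 := abs_sub_le_dist z (AffineMap.lineMap p q r) 1
    rw [lineMap_coord] at a0 a1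
    show |1 * z 0 + -(q 0 - p 0) / (q 1 - p 1) * z 1
      - (p 0 + -(q 0 - p 0) / (q 1 - p 1) * p 1)| < 2 * ε
    have e : 1 * z 0 + -(q 0 - p 0) / (q 1 - p 1) * z 1
        - (p 0 + -(q 0 - p 0) / (q 1 - p 1) * p 1)
        = (z 0 - (p 0 + r * (q 0 - p 0)))
          + -(q 0 - p 0) / (q 1 - p 1) * (z 1 - (p 1 + r * (q 1 - p 1))) := by
      field_simp
      ring
    rw [e]
    refine lt_of_le_of_lt (abs_add_le _ _) ?_
    rw [abs_mul]
    have h5 : |-(q 0 - p 0) / (q 1 - p 1)| * |z 1 - (p 1 + r * (q 1 - p 1))|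
        ≤ 1 * |z 1 - (p 1 + r * (q 1 - p 1))| :=
      mul_le_mul_of_nonneg_right hβ (abs_nonneg _)
    linarith
  · have h1 : q 0 - p 0 ≠ 0 := by
      rcases hne with h2 | h2
      · exact h2
      · intro h3
        rw [h3, abs_zero] at h
        exact h2 (abs_eq_zero.1 (le_antisymm h (abs_nonneg _)))
    have hα : |-(q 1 - p 1) / (q 0 - p 0)| ≤ 1 := by
      rw [abs_div, abs_neg, div_le_one (abs_pos.2 h1)]
      exact h
    refine ⟨-(q 1 - p 1) / (q 0 - p 0), 1,
      -(q 1 - p 1) / (q 0 - p 0) * p 0 + p 1, Or.inr ⟨rfl, hα⟩, ?_⟩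
    intro z hz
    rw [Metric.mem_thickening_iff] at hz
    obtain ⟨y, hy, hd⟩ := hz
    rw [SetLike.mem_coe, mem_affineSpan_pair_iff_exists_lineMap_eq] at hy
    obtain ⟨r, rfl⟩ := hy
    have a0 := abs_sub_le_dist z (AffineMap.lineMap p q r) 0
    have a1 := abs_sub_le_dist z (AffineMap.lineMap p q r) 1
    rw [lineMap_coord] at a0 a1
    show |-(q 1 - p 1) / (q 0 - p 0) * z 0 + 1 * z 1
      - (-(q 1 - p 1) / (q 0 - p 0) * p 0 + p 1)| < 2 * ε
    have e : -(q 1 - p 1) / (q 0 - p 0) * z 0 + 1 * z 1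
        - (-(q 1 - p 1) / (q 0 - p 0) * p 0 + p 1)
        = -(q 1 - p 1) / (q 0 - p 0) * (z 0 - (p 0 + r * (q 0 - p 0)))
          + (z 1 - (p 1 + r * (q 1 - p 1))) := by
      field_simp
      ring
    rw [e]
    refine lt_of_le_of_lt (abs_add_le _ _) ?_
    rw [abs_mul]
    have h5 : |-(q 1 - p 1) / (q 0 - p 0)| * |z 0 - (p 0 + r * (q 0 - p 0))|
        ≤ 1 * |z 0 - (p 0 + r * (q 0 - p 0))| :=
      mul_le_mul_of_nonneg_right hα (abs_nonneg _)
    linarith

lemma segment_subset_line (p q : E2) : segment ℝ p q ⊆ (line[ℝ, p, q] : Set E2) := by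
  intro y hy
  rw [segment_eq_image_lineMap] at hy
  obtain ⟨r, _, rfl⟩ := hy
  rw [SetLike.mem_coe, mem_affineSpan_pair_iff_exists_lineMap_eq]
  exact ⟨r, rfl⟩

/-! ### area -/

lemma mp01 : MeasurePreserving (fun z : E2 => (z 0, z 1)) volume volume :=
  (volume_preserving_finTwoArrow ℝ).comp (PiLp.volume_preserving_ofLp (Fin 2))

lemma mp10 : MeasurePreserving (fun z : E2 => (z 1, z 0)) volume volume :=
  (Measure.measurePreserving_swap (μ := (volume : Measure ℝ)) (ν := (volume : Measure ℝ))).comp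
    mp01

lemma area_aux (i j : Fin 2) (hij : ∀ z y : E2, z i = y i → dist z y = |z j - y j|)
    (hf : MeasurePreserving (fun z : E2 => (z i, z j)) volume volume) {p q : E2}
    (h : p i < q i) {ε : ℝ} (hε : 0 < ε) :
    ENNReal.ofReal (2 * ε * (q i - p i)) ≤ volume (Metric.thickening ε (segment ℝ p q)) := by
  set g : ℝ → ℝ := fun x => p j + (x - p i) / (q i - p i) * (q j - p j) with hg
  have hgc : Continuous g := by
    rw [hg]
    fun_prop
  set R : Set (ℝ × ℝ) := regionBetween (fun x => g x - ε) (fun x => g x + ε)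
    (Set.Icc (p i) (q i)) with hR
  have hRm : MeasurableSet R :=
    measurableSet_regionBetween (hgc.sub continuous_const).measurable
      (hgc.add continuous_const).measurable measurableSet_Icc
  have hvol : volume R = ENNReal.ofReal (2 * ε * (q i - p i)) := by
    rw [hR]
    have h1 := volume_regionBetween_eq_integral (μ := (volume : Measure ℝ))
      (f := fun x => g x - ε) (g := fun x => g x + ε) (s := Set.Icc (p i) (q i))
      ((hgc.sub continuous_const).continuousOn.integrableOn_Icc)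
      ((hgc.add continuous_const).continuousOn.integrableOn_Icc) measurableSet_Icc
      (fun x _ => by linarith)
    rw [Measure.volume_eq_prod]
    rw [h1]
    congr 1
    have h2 : ((fun x => g x + ε) - fun x => g x - ε) = fun _ => 2 * ε := by
      funext x
      simp only [Pi.sub_apply]
      ring
    rw [h2]
    rw [setIntegral_const]
    simp only [measureReal_def, Real.volume_Icc, smul_eq_mul]
    rw [ENNReal.toReal_ofReal (by linarith)]
    ring
  have hsub : (fun z : E2 => (z i, z j)) ⁻¹' R ⊆ Metric.thickening ε (segment ℝ p q) := by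
    intro z hz
    rw [Set.mem_preimage, hR, regionBetween] at hz
    obtain ⟨⟨hz1, hz2⟩, hz3, hz4⟩ := hz
    simp only at hz1 hz2 hz3 hz4
    have hpos : 0 < q i - p i := by linarith
    rw [Metric.mem_thickening_iff]
    refine ⟨AffineMap.lineMap p q ((z i - p i) / (q i - p i)), ?_, ?_⟩
    · rw [segment_eq_image_lineMap]
      refine ⟨_, ⟨div_nonneg (by linarith) hpos.le, ?_⟩, rfl⟩
      rw [div_le_one hpos]
      linarith
    · rw [hij _ _ (by
        rw [lineMap_coord, div_mul_cancel₀ _ hpos.ne']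
        ring), lineMap_coord, abs_lt]
      constructor
      · simp only [hg] at hz3
        linarith
      · simp only [hg] at hz4
        linarith
  rw [← hvol, ← hf.measure_preimage hRm.nullMeasurableSet]
  exact measure_mono hsub

lemma dist_eq_one {z y : E2} (h : z 0 = y 0) : dist z y = |z 1 - y 1| := by
  rw [EuclideanSpace.dist_eq, Fin.sum_univ_two, Real.dist_eq, Real.dist_eq, h, sub_self, abs_zero]
  rw [zero_pow two_ne_zero, zero_add, Real.sqrt_sq (abs_nonneg _)]

lemma dist_eq_zero' {z y : E2} (h : z 1 = y 1) : dist z y = |z 0 - y 0| := by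
  rw [EuclideanSpace.dist_eq, Fin.sum_univ_two, Real.dist_eq, Real.dist_eq, h, sub_self, abs_zero]
  rw [zero_pow two_ne_zero, add_zero, Real.sqrt_sq (abs_nonneg _)]

lemma area_aux' (i j : Fin 2) (hij : ∀ z y : E2, z i = y i → dist z y = |z j - y j|)
    (hf : MeasurePreserving (fun z : E2 => (z i, z j)) volume volume) {p q : E2}
    {ε : ℝ} (hε : 0 < ε) :
    ENNReal.ofReal (2 * ε * |q i - p i|) ≤ volume (Metric.thickening ε (segment ℝ p q)) := by
  rcases lt_trichotomy (p i) (q i) with h | h | h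
  · rw [abs_of_pos (by linarith)]
    exact area_aux i j hij hf h hε
  · rw [h, sub_self, abs_zero, mul_zero, ENNReal.ofReal_zero]
    exact zero_le
  · rw [segment_symm, abs_of_neg (by linarith), neg_sub]
    exact area_aux i j hij hf h hε

/-- **The area of a tube is at least its half-width times its length.** -/
theorem area_ge (p q : E2) {ε : ℝ} (hε : 0 < ε) :
    ENNReal.ofReal (ε * dist p q) ≤ volume (Metric.thickening ε (segment ℝ p q)) := by
  have hd := dist_le_add q p
  rw [dist_comm] at hd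
  rcases le_total |q 0 - p 0| |q 1 - p 1| with h | h
  · refine le_trans (ENNReal.ofReal_le_ofReal ?_)
      (area_aux' 1 0 (fun z y h => dist_eq_zero' h) mp10 hε)
    nlinarith [abs_nonneg (q 1 - p 1)]
  · refine le_trans (ENNReal.ofReal_le_ofReal ?_)
      (area_aux' 0 1 (fun z y h => dist_eq_one h) mp01 hε)
    nlinarith [abs_nonneg (q 0 - p 0)]

end Pool.Agent.W710.Tube
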