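import Pool.Agent.W710.Tube.Shallow

/-!
The key estimate: a strip of half-width `w` meets at most `C w 18 ^ k` rectangles of level `k`.
-/

set_option autoImplicit false

namespace Pool.Agent.W710.Tube

open Finset

variable {D : Finset (ℕ × ℕ)}

lemma exists_level' (c : ℕ) (w : ℝ) (hw1 : w ≤ 1) (k : ℕ) :
    ∃ a : ℕ, (c : ℝ) ^ a * w ≤ 1 ∧ a ≤ k ∧ (a = k ∨ 1 < (c : ℝ) ^ (a + 1) * w) := by
  classical
  set a := Nat.findGreatest (fun a => (c : ℝ) ^ a * w ≤ 1) k with ha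
  have hak : a ≤ k := Nat.findGreatest_le k
  have ha1 : (c : ℝ) ^ a * w ≤ 1 := by
    have := Nat.findGreatest_spec (P := fun a => (c : ℝ) ^ a * w ≤ 1) (Nat.zero_le k)
      (by simpa using hw1)
    exact this
  refine ⟨a, ha1, hak, ?_⟩
  by_contra hcon
  push Not at hcon
  rcases Nat.lt_or_ge a k with hlt | hge
  · exact Nat.findGreatest_is_greatest (P := fun a => (c : ℝ) ^ a * w ≤ 1)
      (Nat.lt_succ_self a) hlt hcon.2
  · exact hcon.1 (le_antisymm hak hge)

/-- the constant of the shallow estimate -/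
noncomputable def CC : ℝ := 18360 * Real.exp 24

lemma CC_ge : 18360 ≤ CC := by
  unfold CC
  have := Real.one_le_exp (x := 24) (by norm_num)
  linarith

/-- **Shallow strips.** -/
theorem shallow (hD : Good D) {α t w : ℝ} (hα : 0 ≤ α) (hα1 : α ≤ 1) (hw : 0 < w) (k : ℕ)
    (hk : 1 ≤ 3 ^ k * w) :
    ((M D α 1 t w k).card : ℝ) ≤ CC * w * 18 ^ k := by
  classical
  have hCC := CC_ge
  have hE : (1 : ℝ) ≤ Real.exp 24 := Real.one_le_exp (by norm_num)
  rcases lt_or_ge 1 w with hw1 | hw1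
  · have h1 : (M D α 1 t w k).card ≤ 18 ^ k := by
      refine le_trans ?_ (card_Adm_le hD k)
      apply card_le_card
      intro p hp
      rw [mem_M] at hp
      exact hp.1
    have h2 : ((M D α 1 t w k).card : ℝ) ≤ 18 ^ k := by exact_mod_cast h1
    have h3 : (0 : ℝ) < 18 ^ k := by positivity
    calc ((M D α 1 t w k).card : ℝ) ≤ 1 * 18 ^ k := by linarith
      _ ≤ CC * w * 18 ^ k := by
        apply mul_le_mul_of_nonneg_right _ h3.le
        nlinarith
  have hk9 : 1 ≤ ((9 : ℕ) : ℝ) ^ k * w := by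
    have : (3 : ℝ) ^ k ≤ 9 ^ k := pow_le_pow_left₀ (by norm_num) (by norm_num) k
    push_cast
    nlinarith
  obtain ⟨h, hh1, hhk, hh2⟩ := exists_level' 9 w hw1 k
  push_cast at hh1 hh2
  have hh3 : (1 : ℝ) ≤ 9 * (9 ^ h * w) := by
    rcases hh2 with hh2 | hh2
    · rw [hh2]
      push_cast at hk9
      linarith
    · rw [pow_succ] at hh2
      linarith
  -- if the count at level `h` is small we are done
  have fin : ((M D α 1 t w h).card : ℝ) ≤ 5 * Real.exp 24 * 2 ^ h →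
      ((M D α 1 t w k).card : ℝ) ≤ CC * w * 18 ^ k := by
    intro hm
    obtain ⟨s, rfl⟩ : ∃ s, k = h + s := ⟨k - h, by omega⟩
    have h5 : ((M D α 1 t w (h + s)).card : ℝ) ≤ 18 ^ s * ((M D α 1 t w h).card : ℝ) := by
      exact_mod_cast M_desc hD hα zero_le_one h s
    calc ((M D α 1 t w (h + s)).card : ℝ) ≤ 18 ^ s * ((M D α 1 t w h).card : ℝ) := h5
      _ ≤ 18 ^ s * (5 * Real.exp 24 * 2 ^ h) := by gcongr
      _ = 5 * Real.exp 24 * (18 ^ s * 2 ^ h) * 1 := by ring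
      _ ≤ 5 * Real.exp 24 * (18 ^ s * 2 ^ h) * (9 * (9 ^ h * w)) := by gcongr
      _ = 45 * Real.exp 24 * w * (18 ^ s * (2 ^ h * 9 ^ h)) := by ring
      _ = 45 * Real.exp 24 * w * 18 ^ (h + s) := by
        have e : (2 : ℝ) ^ h * 9 ^ h = 18 ^ h := by
          rw [← mul_pow]
          norm_num
        rw [e, pow_add]
        ring
      _ ≤ CC * w * 18 ^ (h + s) := by
        have : 45 * Real.exp 24 ≤ CC := by
          unfold CC
          linarith
        gcongr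
  have h00 : ((M D α 1 t w 0).card : ℝ) ≤ 1 := by exact_mod_cast card_M_zero α 1 t w
  rcases lt_or_ge α (2 * w) with hαw | hαw
  · -- very shallow
    apply fin
    have h3 := shallow_part2 (t := t) hD hα 0 h (by simpa using hαw) (by simpa using hh1)
    rw [Nat.zero_add] at h3
    have h4 : ((M D α 1 t w h).card : ℝ) ≤ 2 ^ h * (5 * ((M D α 1 t w 0).card : ℝ)) := by
      exact_mod_cast h3
    have h5 : (0 : ℝ) < 2 ^ h := by positivity
    calc ((M D α 1 t w h).card : ℝ) ≤ 2 ^ h * (5 * ((M D α 1 t w 0).card : ℝ)) := h4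
      _ ≤ 2 ^ h * (5 * 1) := by gcongr
      _ = 5 * 1 * 2 ^ h := by ring
      _ ≤ 5 * Real.exp 24 * 2 ^ h := by gcongr
  have hα0 : 0 < α := by linarith
  have hkα : 1 ≤ ((3 : ℕ) : ℝ) ^ k * α := by
    push_cast
    have : (0 : ℝ) < 3 ^ k := by positivity
    nlinarith
  obtain ⟨b0, hb1, hbk, hb2⟩ := exists_level' 3 α hα1 k
  push_cast at hb1 hb2 hkα
  have hb3 : (1 : ℝ) ≤ 3 ^ (b0 + 1) * α := by
    rcases hb2 with hb2 | hb2
    · rw [hb2, pow_succ]
      linarith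
    · exact hb2.le
  obtain ⟨B, hB⟩ : ∃ B, B = b0 - 1 := ⟨_, rfl⟩
  have hκ9 : 1 ≤ 9 * (3 ^ B * α) := by
    have h2 : (3 : ℝ) ^ (b0 + 1) ≤ 3 ^ (B + 2) := pow_le_pow_right₀ (by norm_num) (by omega)
    calc (1 : ℝ) ≤ 3 ^ (b0 + 1) * α := hb3
      _ ≤ 3 ^ (B + 2) * α := mul_le_mul_of_nonneg_right h2 hα
      _ = 9 * (3 ^ B * α) := by rw [pow_add]; ring
  have hκ1 : 3 ^ B * α ≤ 1 := by
    have h2 : (3 : ℝ) ^ B ≤ 3 ^ b0 := pow_le_pow_right₀ (by norm_num) (by omega)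
    calc (3 : ℝ) ^ B * α ≤ 3 ^ b0 * α := mul_le_mul_of_nonneg_right h2 hα
      _ ≤ 1 := hb1
  have hBk : B ≤ k := by omega
  obtain ⟨G, hG, hGB, hGh, hGm⟩ : ∃ G, (G = B ∨ G = h ∨ α < 2 * w * 3 ^ G) ∧ G ≤ B ∧ G ≤ h ∧
      ∀ b < G, 2 * w * 3 ^ b ≤ α := by
    have hex : ∃ G, G = B ∨ G = h ∨ α < 2 * w * 3 ^ G := ⟨B, Or.inl rfl⟩
    refine ⟨Nat.find hex, Nat.find_spec hex, Nat.find_min' hex (Or.inl rfl),
      Nat.find_min' hex (Or.inr (Or.inl rfl)), ?_⟩
    intro b hb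
    have := Nat.find_min hex hb
    push Not at this
    exact this.2.2
  have hGb : G = 0 ∨ G + 1 ≤ b0 := by omega
  have h9G : 9 ^ G * w ≤ 1 := by
    have : (9 : ℝ) ^ G ≤ 9 ^ h := pow_le_pow_right₀ (by norm_num) hGh
    nlinarith
  have hgr := shallow_growth (t := t) hD hα0 hw b0 hb1 G hGb h9G hGm
  have hgr' : ((M D α 1 t w G).card : ℝ) ≤ 2 ^ G * Real.exp 24 := by
    refine hgr.trans ?_
    have := Real.exp_le_exp.2 (ee_le b0 G hGb)
    gcongr
  rcases hG with hG | hG | hG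
  · -- zoom in
    subst hG
    obtain ⟨s, rfl⟩ : ∃ s, k = G + s := ⟨k - G, by omega⟩
    have hκ0 : (0 : ℝ) < 3 ^ G * α := by positivity
    have hw' : 0 < 9 ^ G * w / (3 ^ G * α) := by positivity
    have hz := zoom (t := t) (w := w) (C := 2040 * (9 ^ G * w / (3 ^ G * α)) * 18 ^ s) hD hα0 G s
      (by
        intro t'
        refine steep hD (by positivity) ?_ hw' s ?_
        · rw [div_le_iff₀ hκ0]
          exact hκ9
        · have e9 : (9 : ℝ) ^ G = 3 ^ G * 3 ^ G := by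
            rw [← mul_pow]
            norm_num
          have e1 : (3 : ℝ) ^ s * (9 ^ G * w / (3 ^ G * α)) = (3 ^ (G + s) * w) / α := by
            rw [e9, pow_add]
            field_simp
          rw [e1, le_div_iff₀ hα0]
          linarith)
    refine hz.trans ?_
    have h6 : 9 ^ G * w / (3 ^ G * α) ≤ 9 * (9 ^ G * w) := by
      rw [div_le_iff₀ hκ0]
      have : 0 < 9 ^ G * w := by positivity
      nlinarith
    calc 2040 * (9 ^ G * w / (3 ^ G * α)) * 18 ^ s * ((M D α 1 t w G).card : ℝ)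
        ≤ 2040 * (9 * (9 ^ G * w)) * 18 ^ s * (2 ^ G * Real.exp 24) := by
          have p1 : 2040 * (9 ^ G * w / (3 ^ G * α)) * 18 ^ s ≤
              2040 * (9 * (9 ^ G * w)) * 18 ^ s := by
            apply mul_le_mul_of_nonneg_right _ (by positivity)
            linarith
          have p3 : (0 : ℝ) ≤ 9 ^ G * w := mul_nonneg (pow_nonneg (by norm_num) G) hw.le
          have p4 : (0 : ℝ) ≤ 18 ^ s := pow_nonneg (by norm_num) s
          have p5 : (0 : ℝ) ≤ 2040 * (9 * (9 ^ G * w)) := by linarith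
          exact mul_le_mul p1 hgr' (Nat.cast_nonneg _) (mul_nonneg p5 p4)
      _ = 18360 * Real.exp 24 * w * (18 ^ s * (2 ^ G * 9 ^ G)) := by ring
      _ = CC * w * 18 ^ (G + s) := by
        have e : (2 : ℝ) ^ G * 9 ^ G = 18 ^ G := by
          rw [← mul_pow]
          norm_num
        unfold CC
        rw [e, pow_add]
        ring
  · apply fin
    rw [← hG]
    calc ((M D α 1 t w G).card : ℝ) ≤ 2 ^ G * Real.exp 24 := hgr'
      _ = 1 * Real.exp 24 * 2 ^ G := by ring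
      _ ≤ 5 * Real.exp 24 * 2 ^ G := by
        gcongr
        norm_num
  · apply fin
    obtain ⟨r, rfl⟩ : ∃ r, h = G + r := ⟨h - G, by omega⟩
    have h3 := shallow_part2 (t := t) hD hα G r hG hh1
    have h4 : ((M D α 1 t w (G + r)).card : ℝ) ≤ 2 ^ r * (5 * ((M D α 1 t w G).card : ℝ)) := by
      exact_mod_cast h3
    calc ((M D α 1 t w (G + r)).card : ℝ) ≤ 2 ^ r * (5 * ((M D α 1 t w G).card : ℝ)) := h4
      _ ≤ 2 ^ r * (5 * (2 ^ G * Real.exp 24)) := by gcongr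
      _ = 5 * Real.exp 24 * 2 ^ (G + r) := by rw [pow_add]; ring

/-- **Key estimate** for strips whose normal vector has non-negative coordinates, the larger
one being `1`. -/
theorem key (hD : Good D) {α β t w : ℝ} (hα : 0 ≤ α) (hβ : 0 ≤ β)
    (h : (α = 1 ∧ β ≤ 1) ∨ (β = 1 ∧ α ≤ 1)) (hw : 0 < w) (k : ℕ) (hk : 1 ≤ 3 ^ k * w) :
    ((M D α β t w k).card : ℝ) ≤ CC * w * 18 ^ k := by
  rcases h with ⟨rfl, h⟩ | ⟨rfl, h⟩
  · refine (steep hD hβ (by linarith) hw k hk).trans ?_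
    have := CC_ge
    gcongr
    linarith
  · exact shallow hD hα h hw k hk

end Pool.Agent.W710.Tube
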