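import Pool.Agent.W710.Tube.Steep

/-!
Counting the rectangles that meet a strip: shallow strips.
-/

set_option autoImplicit false

namespace Pool.Agent.W710.Tube

open Finset

variable {D : Finset (ℕ × ℕ)}

/-- the horizontal line through `η / 9 ^ (b + 1)` meets the strip above the `x`-cylinder `u` -/
def YC (α t w : ℝ) (b : ℕ) (q : ℕ × ℕ) : Prop :=
  α * ((q.1 : ℝ) / 3 ^ b) + (q.2 : ℝ) / 9 ^ (b + 1) - t < w ∧
  -w < α * (((q.1 : ℝ) + 1) / 3 ^ b) + (q.2 : ℝ) / 9 ^ (b + 1) - t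

lemma shallow_step (hD : Good D) {α t w : ℝ} (hα : 0 < α) (g s : ℕ)
    (h9w : 9 ^ (g + s + 1) * w ≤ 1) (h9α : 9 ^ (g + s + 1) * α ≤ 3 ^ g)
    (hreg : 2 * w * 3 ^ (g + s) ≤ α) :
    (M D α 1 t w (g + s + 1)).card ≤
      2 * ((M D α 1 t w (g + s)).card + 6 * (M D α 1 t w g).card) := by
  classical
  set b := g + s with hb
  set I := (M D α 1 t w (b + 1)).image (fun p => (p.1 / 3, p.2)) with hI
  have c1 : (M D α 1 t w (b + 1)).card ≤ 2 * I.card := by
    apply card_le_mul_card_image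
    intro q _
    refine fiber_row hD b q.1 q.2 _ ?_ ?_ ?_
    · intro p hp
      rw [mem_filter, mem_M] at hp
      exact hp.1.1
    · intro p hp
      rw [mem_filter] at hp
      rw [← hp.2]
    · intro p hp
      rw [mem_filter] at hp
      rw [← hp.2]
  have key : ∀ q ∈ I, ∃ p ∈ M D α 1 t w (b + 1), p.1 / 3 = q.1 ∧ p.2 = q.2 := by
    intro q hq
    rw [hI, mem_image] at hq
    obtain ⟨p, hp, rfl⟩ := hq
    exact ⟨p, hp, rfl, rfl⟩
  have hlow : ∀ q ∈ I, α * ((q.1 : ℝ) / 3 ^ b) + (q.2 : ℝ) / 9 ^ (b + 1) - t < w := by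
    intro q hq
    obtain ⟨p, hp, h1, h2⟩ := key q hq
    rw [mem_M] at hp
    have h3 := hp.2.1
    have h4 := mul_le_mul_of_nonneg_left (low3 p.1 1 b) hα.le
    rw [pow_one, h1] at h4
    rw [h2, one_mul] at h3
    linarith
  have hup : ∀ q ∈ I, -w < α * (((q.1 : ℝ) + 1) / 3 ^ b) +
      ((q.2 : ℝ) + 1) / 9 ^ (b + 1) - t := by
    intro q hq
    obtain ⟨p, hp, h1, h2⟩ := key q hq
    rw [mem_M] at hp
    have h3 := hp.2.2
    have h4 := mul_le_mul_of_nonneg_left (up3 p.1 1 b) hα.le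
    rw [pow_one, h1] at h4
    rw [h2, one_mul] at h3
    linarith
  have c2 : (I.filter (YC α t w b)).card + (I.filter (fun q => ¬ YC α t w b q)).card = I.card :=
    card_filter_add_card_filter_not _
  have c3 : (I.filter (fun q => ¬ YC α t w b q)).card ≤ (M D α 1 t w b).card := by
    refine card_le_card_of_injOn (fun q => (q.1, q.2 / 9)) ?_ ?_
    · intro q hq
      rw [mem_coe, mem_filter] at hq
      obtain ⟨p, hp, h1, h2⟩ := key q hq.1
      have := M_anc hD hα.le zero_le_one b 1 p hp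
      rw [pow_one, pow_one, h1, h2] at this
      exact this
    · have aux : ∀ q ∈ I, ∀ q' ∈ I, ¬ YC α t w b q' → q.1 = q'.1 → ¬ q.2 < q'.2 := by
        intro q hq q' hq' hx h2 hlt
        apply hx
        refine ⟨hlow q' hq', ?_⟩
        have h3 := hup q hq
        have h4 : ((q.2 : ℝ) + 1) / 9 ^ (b + 1) ≤ (q'.2 : ℝ) / 9 ^ (b + 1) := by
          apply div_le_div_of_nonneg_right _ (by positivity)
          exact_mod_cast hlt
        rw [h2] at h3
        linarith
      intro q hq q' hq' hqq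
      rw [mem_coe, mem_filter] at hq hq'
      simp only [Prod.mk.injEq] at hqq
      have a1 := aux q hq.1 q' hq'.1 hq'.2 hqq.1
      have a2 := aux q' hq'.1 q hq.1 hq.2 hqq.1.symm
      ext
      · exact hqq.1
      · omega
  have c4 : (I.filter (YC α t w b)).card ≤
      6 * ((I.filter (YC α t w b)).image (fun q => (q.1 / 3 ^ s, q.2 / 9 ^ (s + 1)))).card := by
    apply card_le_mul_card_image
    intro z _
    set F := (I.filter (YC α t w b)).filter
      (fun q => (q.1 / 3 ^ s, q.2 / 9 ^ (s + 1)) = z) with hF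
    have hFm : ∀ q ∈ F, YC α t w b q ∧ q.1 / 3 ^ s = z.1 := by
      intro q hq
      rw [hF, mem_filter, mem_filter] at hq
      refine ⟨hq.1.2, ?_⟩
      have := congrArg Prod.fst hq.2
      exact this
    have e1 : F.card ≤ 2 * (F.image Prod.snd).card := by
      apply card_le_mul_card_image
      intro η _
      have e2 : (F.filter (fun q => q.2 = η)).card ≤
          ((F.filter (fun q => q.2 = η)).image Prod.fst).card := by
        rw [card_image_of_injOn]
        intro q hq q' hq' hqq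
        rw [mem_coe, mem_filter] at hq hq'
        ext
        · exact hqq
        · rw [hq.2, hq'.2]
      refine e2.trans (card_le_nat _ 2 ?_)
      intro v hv v' hv'
      rw [mem_image] at hv hv'
      obtain ⟨q, hq, rfl⟩ := hv
      obtain ⟨q', hq', rfl⟩ := hv'
      rw [mem_filter] at hq hq'
      have h1 := (hFm q hq.1).1.2
      have h2 := (hFm q' hq'.1).1.1
      rw [hq.2] at h1
      rw [hq'.2] at h2
      have h3 : α * (((q'.1 : ℝ) - q.1 - 1) / 3 ^ b) < 2 * w := by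
        have : α * (((q'.1 : ℝ) - q.1 - 1) / 3 ^ b) =
            α * ((q'.1 : ℝ) / 3 ^ b) - α * (((q.1 : ℝ) + 1) / 3 ^ b) := by ring
        rw [this]
        linarith
      have h4 : α * ((q'.1 : ℝ) - q.1 - 1) < 2 * w * 3 ^ b := by
        have h5 : α * ((q'.1 : ℝ) - q.1 - 1) = α * (((q'.1 : ℝ) - q.1 - 1) / 3 ^ b) * 3 ^ b := by
          field_simp
        rw [h5]
        exact mul_lt_mul_of_pos_right h3 (by positivity)
      have h5 : α * ((q'.1 : ℝ) - q.1 - 1) < α * 1 := by linarith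
      have h6 := lt_of_mul_lt_mul_left h5 hα.le
      push_cast
      linarith
    have e3 : (F.image Prod.snd).card ≤ 3 := by
      apply card_le_nat
      intro v hv v' hv'
      rw [mem_image] at hv hv'
      obtain ⟨q, hq, rfl⟩ := hv
      obtain ⟨q', hq', rfl⟩ := hv'
      obtain ⟨y1, z1⟩ := hFm q hq
      obtain ⟨y2, z2⟩ := hFm q' hq'
      have h1 := y1.2
      have h2 := y2.1
      have h3 := mul_le_mul_of_nonneg_left (low3 q'.1 s g) hα.le
      have h4 := mul_le_mul_of_nonneg_left (up3 q.1 s g) hα.le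
      rw [z2, ← hb] at h3
      rw [z1, ← hb] at h4
      have h5 : α * (((z.1 : ℝ) + 1) / 3 ^ g) = α * ((z.1 : ℝ) / 3 ^ g) + α / 3 ^ g := by ring
      rw [h5] at h4
      have h6 : ((q'.2 : ℝ) - q.2) / 9 ^ (b + 1) < 2 * w + α / 3 ^ g := by
        rw [sub_div]
        linarith
      rw [div_lt_iff₀ (by positivity)] at h6
      have h7 : α / 3 ^ g * 9 ^ (b + 1) ≤ 1 := by
        rw [div_mul_eq_mul_div, div_le_one (by positivity)]
        linarith
      push_cast
      nlinarith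
    calc F.card ≤ 2 * (F.image Prod.snd).card := e1
      _ ≤ 2 * 3 := Nat.mul_le_mul_left _ e3
      _ = 6 := rfl
  have c5 : ((I.filter (YC α t w b)).image (fun q => (q.1 / 3 ^ s, q.2 / 9 ^ (s + 1)))).card ≤
      (M D α 1 t w g).card := by
    apply card_le_card
    intro z hz
    rw [mem_image] at hz
    obtain ⟨q, hq, rfl⟩ := hz
    rw [mem_filter] at hq
    obtain ⟨p, hp, h1, h2⟩ := key q hq.1
    have := M_anc hD hα.le zero_le_one g (s + 1) p (by rw [← add_assoc]; exact hp)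
    rw [← h1, ← h2, Nat.div_div_eq_div_mul, ← pow_succ']
    exact this
  calc (M D α 1 t w (b + 1)).card ≤ 2 * I.card := c1
    _ = 2 * ((I.filter (fun q => ¬ YC α t w b q)).card + (I.filter (YC α t w b)).card) := by
      rw [← c2, Nat.add_comm]
    _ ≤ 2 * ((M D α 1 t w b).card + 6 * (M D α 1 t w g).card) := by
      apply Nat.mul_le_mul_left
      apply Nat.add_le_add c3
      exact c4.trans (Nat.mul_le_mul_left _ c5)

/-- the exponent in the growth bound -/
noncomputable def ee (b0 b : ℕ) : ℝ := 12 * (1 - (1 / 2) ^ b) + 12 * (2 ^ (b + 1) / 2 ^ b0)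

lemma ee_mono (b0 : ℕ) : Monotone (ee b0) := by
  apply monotone_nat_of_le_succ
  intro b
  unfold ee
  have h1 : (1 / 2 : ℝ) ^ (b + 1) ≤ (1 / 2) ^ b := by
    rw [pow_succ]
    have : (0 : ℝ) < (1 / 2) ^ b := by positivity
    linarith
  have h2 : (2 : ℝ) ^ (b + 1) / 2 ^ b0 ≤ 2 ^ (b + 1 + 1) / 2 ^ b0 := by
    apply div_le_div_of_nonneg_right _ (by positivity)
    rw [pow_succ 2 (b + 1)]
    have : (0 : ℝ) < 2 ^ (b + 1) := by positivity
    linarith
  linarith

lemma ee_nonneg (b0 b : ℕ) : 0 ≤ ee b0 b := by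
  unfold ee
  have h1 : (1 / 2 : ℝ) ^ b ≤ 1 := pow_le_one₀ (by norm_num) (by norm_num)
  have h2 : (0 : ℝ) ≤ 2 ^ (b + 1) / 2 ^ b0 := by positivity
  linarith

lemma shallow_growth (hD : Good D) {α t w : ℝ} (hα : 0 < α) (hw : 0 < w) (b0 : ℕ)
    (hb0 : 3 ^ b0 * α ≤ 1) : ∀ b : ℕ, (b = 0 ∨ b + 1 ≤ b0) → 9 ^ b * w ≤ 1 →
    (∀ b' < b, 2 * w * 3 ^ b' ≤ α) →
    ((M D α 1 t w b).card : ℝ) ≤ 2 ^ b * Real.exp (ee b0 b) := by
  intro b
  induction b using Nat.strong_induction_on with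
  | _ b ih =>
  intro hb h9 hreg
  rcases b with _ | b
  · have h : ((M D α 1 t w 0).card : ℝ) ≤ 1 := by exact_mod_cast card_M_zero α 1 t w
    have := Real.one_le_exp (ee_nonneg b0 0)
    rw [pow_zero, one_mul]
    linarith
  · have hb' : b + 1 + 1 ≤ b0 := by
      rcases hb with hb | hb
      · omega
      · exact hb
    have hmono : ∀ c : ℕ, c ≤ b + 1 → (9 : ℝ) ^ c * w ≤ 1 := by
      intro c hc
      have : (9 : ℝ) ^ c ≤ 9 ^ (b + 1) := pow_le_pow_right₀ (by norm_num) hc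
      nlinarith
    obtain ⟨g, hg⟩ : ∃ g, g = 2 * (b + 1) - b0 := ⟨_, rfl⟩
    have hgb : g ≤ b := by omega
    obtain ⟨s, hs⟩ : ∃ s, b = g + s := ⟨b - g, by omega⟩
    have ih1 := ih b (by omega) (Or.inr (by omega)) (hmono b (by omega))
      (fun b' hb' => hreg b' (by omega))
    have ih2 := ih g (by omega) (Or.inr (by omega)) (hmono g (by omega))
      (fun b' hb' => hreg b' (by omega))
    have hcond : (9 : ℝ) ^ (b + 1) * α ≤ 3 ^ g := by
      have e1 : (9 : ℝ) ^ (b + 1) = 3 ^ (2 * (b + 1)) := by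
        rw [pow_mul]
        norm_num
      have e2 : (3 : ℝ) ^ (2 * (b + 1)) ≤ 3 ^ (g + b0) :=
        pow_le_pow_right₀ (by norm_num) (by omega)
      rw [e1]
      calc (3 : ℝ) ^ (2 * (b + 1)) * α ≤ 3 ^ (g + b0) * α :=
            mul_le_mul_of_nonneg_right e2 hα.le
        _ = 3 ^ g * (3 ^ b0 * α) := by rw [pow_add]; ring
        _ ≤ 3 ^ g * 1 := by gcongr
        _ = 3 ^ g := mul_one _
    have hstep := shallow_step (t := t) hD hα g s (by rw [← hs]; exact h9)
      (by rw [← hs]; exact hcond) (by rw [← hs]; exact hreg b (by omega))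
    rw [← hs] at hstep
    have hstep' : ((M D α 1 t w (b + 1)).card : ℝ) ≤
        2 * (((M D α 1 t w b).card : ℝ) + 6 * ((M D α 1 t w g).card : ℝ)) := by
      exact_mod_cast hstep
    have hexp : Real.exp (ee b0 g) ≤ Real.exp (ee b0 b) := Real.exp_le_exp.2 (ee_mono b0 hgb)
    have h2g : (2 : ℝ) ^ g ≤ 1 + 2 ^ (2 * (b + 1)) / 2 ^ b0 := by
      rcases Nat.lt_or_ge b0 (2 * (b + 1)) with hlt | hge
      · have : 2 * (b + 1) = g + b0 := by omega
        rw [this, pow_add, mul_div_assoc, div_self (by positivity), mul_one]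
        linarith
      · have : g = 0 := by omega
        rw [this, pow_zero]
        have : (0 : ℝ) ≤ 2 ^ (2 * (b + 1)) / 2 ^ b0 := by positivity
        linarith
    have hee : ee b0 (b + 1) = ee b0 b + 6 * ((1 + 2 ^ (2 * (b + 1)) / 2 ^ b0) / 2 ^ b) := by
      unfold ee
      have e0 : (2 : ℝ) ^ b ≠ 0 := by positivity
      have e00 : (2 : ℝ) ^ b0 ≠ 0 := by positivity
      have e1 : (1 / 2 : ℝ) ^ b = 1 / 2 ^ b := by rw [one_div_pow]
      have e2 : (2 : ℝ) ^ (2 * (b + 1)) = 4 * (2 ^ b * 2 ^ b) := by ring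
      rw [pow_succ (1 / 2 : ℝ) b, e1, e2, pow_succ 2 (b + 1), pow_succ 2 b]
      field_simp
      ring
    have hpos : (0 : ℝ) < 2 ^ b := by positivity
    have hep := Real.exp_pos (ee b0 b)
    calc ((M D α 1 t w (b + 1)).card : ℝ)
        ≤ 2 * (((M D α 1 t w b).card : ℝ) + 6 * ((M D α 1 t w g).card : ℝ)) := hstep'
      _ ≤ 2 * (2 ^ b * Real.exp (ee b0 b) + 6 * (2 ^ g * Real.exp (ee b0 b))) := by
        have : ((M D α 1 t w g).card : ℝ) ≤ 2 ^ g * Real.exp (ee b0 b) :=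
          ih2.trans (mul_le_mul_of_nonneg_left hexp (by positivity))
        linarith
      _ ≤ 2 * (2 ^ b * Real.exp (ee b0 b) +
          6 * ((1 + 2 ^ (2 * (b + 1)) / 2 ^ b0) * Real.exp (ee b0 b))) := by
        have := mul_le_mul_of_nonneg_right h2g hep.le
        linarith
      _ = 2 ^ (b + 1) * (Real.exp (ee b0 b) *
          (6 * ((1 + 2 ^ (2 * (b + 1)) / 2 ^ b0) / 2 ^ b) + 1)) := by
        rw [pow_succ 2 b]
        field_simp
        ring
      _ ≤ 2 ^ (b + 1) * (Real.exp (ee b0 b) *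
          Real.exp (6 * ((1 + 2 ^ (2 * (b + 1)) / 2 ^ b0) / 2 ^ b))) := by
        have := Real.add_one_le_exp (6 * ((1 + (2 : ℝ) ^ (2 * (b + 1)) / 2 ^ b0) / 2 ^ b))
        gcongr
      _ = 2 ^ (b + 1) * Real.exp (ee b0 (b + 1)) := by rw [← Real.exp_add, hee]

lemma ee_le (b0 b : ℕ) (h : b = 0 ∨ b + 1 ≤ b0) : ee b0 b ≤ 24 := by
  unfold ee
  have h1 : (0 : ℝ) ≤ (1 / 2) ^ b := by positivity
  rcases h with rfl | h
  · have h2 : (2 : ℝ) ^ (0 + 1) / 2 ^ b0 ≤ 2 := by
      rw [div_le_iff₀ (by positivity)]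
      have : (1 : ℝ) ≤ 2 ^ b0 := one_le_pow₀ (by norm_num)
      norm_num
      linarith
    simp only [pow_zero]
    linarith
  · have h2 : (2 : ℝ) ^ (b + 1) / 2 ^ b0 ≤ 1 := by
      rw [div_le_one (by positivity)]
      exact pow_le_pow_right₀ (by norm_num) h
    linarith

lemma shallow_part2 (hD : Good D) {α t w : ℝ} (hα : 0 ≤ α) (g r : ℕ)
    (hreg : α < 2 * w * 3 ^ g) (hr : 9 ^ (g + r) * w ≤ 1) :
    (M D α 1 t w (g + r)).card ≤ 2 ^ r * (5 * (M D α 1 t w g).card) := by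
  classical
  set I := (M D α 1 t w (g + r)).image (fun p => (p.1 / 3 ^ r, p.2)) with hI
  have c1 : (M D α 1 t w (g + r)).card ≤ 2 ^ r * I.card := by
    apply card_le_mul_card_image
    intro q _
    refine desc_row hD g r q.1 q.2 _ ?_ ?_ ?_
    · intro p hp
      rw [mem_filter, mem_M] at hp
      exact hp.1.1
    · intro p hp
      rw [mem_filter] at hp
      rw [← hp.2]
    · intro p hp
      rw [mem_filter] at hp
      rw [← hp.2]
  have key : ∀ q ∈ I, ∃ p ∈ M D α 1 t w (g + r), p.1 / 3 ^ r = q.1 ∧ p.2 = q.2 := by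
    intro q hq
    rw [hI, mem_image] at hq
    obtain ⟨p, hp, rfl⟩ := hq
    exact ⟨p, hp, rfl, rfl⟩
  have hlow : ∀ q ∈ I, α * ((q.1 : ℝ) / 3 ^ g) + (q.2 : ℝ) / 9 ^ (g + r) - t < w := by
    intro q hq
    obtain ⟨p, hp, h1, h2⟩ := key q hq
    rw [mem_M] at hp
    have h3 := hp.2.1
    have h4 := mul_le_mul_of_nonneg_left (low3 p.1 r g) hα
    rw [h1] at h4
    rw [h2, one_mul] at h3
    linarith
  have hup : ∀ q ∈ I, -w < α * (((q.1 : ℝ) + 1) / 3 ^ g) +
      ((q.2 : ℝ) + 1) / 9 ^ (g + r) - t := by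
    intro q hq
    obtain ⟨p, hp, h1, h2⟩ := key q hq
    rw [mem_M] at hp
    have h3 := hp.2.2
    have h4 := mul_le_mul_of_nonneg_left (up3 p.1 r g) hα
    rw [h1] at h4
    rw [h2, one_mul] at h3
    linarith
  have c2 : I.card ≤ 5 * (I.image (fun q => (q.1, q.2 / 9 ^ r))).card := by
    apply card_le_mul_card_image
    intro s _
    have e1 : (I.filter (fun q => (q.1, q.2 / 9 ^ r) = s)).card ≤
        ((I.filter (fun q => (q.1, q.2 / 9 ^ r) = s)).image Prod.snd).card := by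
      rw [card_image_of_injOn]
      intro q hq q' hq' hqq
      rw [mem_coe, mem_filter] at hq hq'
      ext
      · have a1 := congrArg Prod.fst hq.2
        have a2 := congrArg Prod.fst hq'.2
        simp only at a1 a2
        rw [a1, a2]
      · exact hqq
    refine e1.trans (card_le_nat _ 5 ?_)
    intro v hv v' hv'
    rw [mem_image] at hv hv'
    obtain ⟨q, hq, rfl⟩ := hv
    obtain ⟨q', hq', rfl⟩ := hv'
    rw [mem_filter] at hq hq'
    have h1 := hup q hq.1
    have h2 := hlow q' hq'.1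
    have a1 := congrArg Prod.fst hq.2
    have a2 := congrArg Prod.fst hq'.2
    simp only at a1 a2
    rw [a1] at h1
    rw [a2] at h2
    have h3 : α / 3 ^ g < 2 * w := by
      rw [div_lt_iff₀ (by positivity)]
      exact hreg
    have h4 : α * (((s.1 : ℝ) + 1) / 3 ^ g) = α * ((s.1 : ℝ) / 3 ^ g) + α / 3 ^ g := by ring
    rw [h4] at h1
    have h5 : ((q'.2 : ℝ) - q.2 - 1) / 9 ^ (g + r) < 4 * w := by
      have : ((q'.2 : ℝ) - q.2 - 1) / 9 ^ (g + r) =
        (q'.2 : ℝ) / 9 ^ (g + r) - ((q.2 : ℝ) + 1) / 9 ^ (g + r) := by ring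
      rw [this]
      linarith
    rw [div_lt_iff₀ (by positivity)] at h5
    push_cast
    nlinarith
  have c3 : (I.image (fun q => (q.1, q.2 / 9 ^ r))).card ≤ (M D α 1 t w g).card := by
    apply card_le_card
    intro s hs
    rw [mem_image] at hs
    obtain ⟨q, hq, rfl⟩ := hs
    obtain ⟨p, hp, h1, h2⟩ := key q hq
    have := M_anc hD hα zero_le_one g r p hp
    rw [h1, h2] at this
    exact this
  calc (M D α 1 t w (g + r)).card ≤ 2 ^ r * I.card := c1
    _ ≤ 2 ^ r * (5 * (M D α 1 t w g).card) :=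
      Nat.mul_le_mul_left _ (c2.trans (Nat.mul_le_mul_left _ c3))

/-- zooming in: the part of the strip inside a rectangle of level `B` becomes steeper -/
lemma zoom (hD : Good D) {α t w C : ℝ} (hα : 0 < α) (B s : ℕ)
    (hC : ∀ t' : ℝ, ((M D 1 (1 / (3 ^ B * α)) t' (9 ^ B * w / (3 ^ B * α)) s).card : ℝ) ≤ C) :
    ((M D α 1 t w (B + s)).card : ℝ) ≤ C * (M D α 1 t w B).card := by
  classical
  have hκ : (0 : ℝ) < 3 ^ B * α := by positivity
  have hC0 : 0 ≤ C := le_trans (Nat.cast_nonneg _) (hC 0)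
  have h1 : (M D α 1 t w (B + s)).card = ∑ q ∈ M D α 1 t w B,
      ((M D α 1 t w (B + s)).filter (fun p => (p.1 / 3 ^ s, p.2 / 9 ^ s) = q)).card := by
    apply card_eq_sum_card_fiberwise
    intro p hp
    exact M_anc hD hα.le zero_le_one B s p hp
  rw [h1]
  push_cast
  have h2 : ∀ q ∈ M D α 1 t w B,
      (((M D α 1 t w (B + s)).filter (fun p => (p.1 / 3 ^ s, p.2 / 9 ^ s) = q)).card : ℝ) ≤ C := by
    intro q _
    refine le_trans ?_ (hC ((t - α * ((q.1 : ℝ) / 3 ^ B) - (q.2 : ℝ) / 9 ^ B) * 9 ^ B /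
      (3 ^ B * α)))
    rw [Nat.cast_le]
    refine card_le_card_of_injOn (fun p => (p.1 % 3 ^ s, p.2 % 9 ^ s)) ?_ ?_
    · intro p hp
      rw [mem_coe, mem_filter] at hp
      obtain ⟨hp, hpq⟩ := hp
      rw [mem_M] at hp
      rw [mem_coe, mem_M]
      refine ⟨mem_tail hD B s p hp.1, ?_⟩
      have a1 : p.1 / 3 ^ s = q.1 := congrArg Prod.fst hpq
      have a2 : p.2 / 9 ^ s = q.2 := congrArg Prod.snd hpq
      have b1 : (p.1 : ℝ) = 3 ^ s * q.1 + ((p.1 % 3 ^ s : ℕ) : ℝ) := by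
        rw [← a1]
        exact_mod_cast (Nat.div_add_mod p.1 (3 ^ s)).symm
      have b2 : (p.2 : ℝ) = 9 ^ s * q.2 + ((p.2 % 9 ^ s : ℕ) : ℝ) := by
        rw [← a2]
        exact_mod_cast (Nat.div_add_mod p.2 (9 ^ s)).symm
      obtain ⟨h3, h4⟩ := hp.2
      have e9 : (9 : ℝ) ^ B = 3 ^ B * 3 ^ B := by
        rw [← mul_pow]
        norm_num
      have hp3 : (0 : ℝ) < 3 ^ B := by positivity
      have hp3s : (0 : ℝ) < 3 ^ s := by positivity
      have hp9 : (0 : ℝ) < 9 ^ B := by positivity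
      have hp9s : (0 : ℝ) < 9 ^ s := by positivity
      constructor
      · have id1 : (1 : ℝ) * (((p.1 % 3 ^ s : ℕ) : ℝ) / 3 ^ s) +
            1 / (3 ^ B * α) * (((p.2 % 9 ^ s : ℕ) : ℝ) / 9 ^ s) -
            (t - α * ((q.1 : ℝ) / 3 ^ B) - (q.2 : ℝ) / 9 ^ B) * 9 ^ B / (3 ^ B * α) =
            (α * ((p.1 : ℝ) / 3 ^ (B + s)) + 1 * ((p.2 : ℝ) / 9 ^ (B + s)) - t) *
              (9 ^ B / (3 ^ B * α)) := by
          rw [b1, b2, pow_add, pow_add, e9]
          field_simp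
          ring
        simp only
        rw [id1]
        have : (α * ((p.1 : ℝ) / 3 ^ (B + s)) + 1 * ((p.2 : ℝ) / 9 ^ (B + s)) - t) *
              (9 ^ B / (3 ^ B * α)) < w * (9 ^ B / (3 ^ B * α)) :=
          mul_lt_mul_of_pos_right h3 (by positivity)
        calc _ < w * (9 ^ B / (3 ^ B * α)) := this
          _ = 9 ^ B * w / (3 ^ B * α) := by ring
      · have id1 : (1 : ℝ) * ((((p.1 % 3 ^ s : ℕ) : ℝ) + 1) / 3 ^ s) +
            1 / (3 ^ B * α) * ((((p.2 % 9 ^ s : ℕ) : ℝ) + 1) / 9 ^ s) -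
            (t - α * ((q.1 : ℝ) / 3 ^ B) - (q.2 : ℝ) / 9 ^ B) * 9 ^ B / (3 ^ B * α) =
            (α * (((p.1 : ℝ) + 1) / 3 ^ (B + s)) + 1 * (((p.2 : ℝ) + 1) / 9 ^ (B + s)) - t) *
              (9 ^ B / (3 ^ B * α)) := by
          rw [b1, b2, pow_add, pow_add, e9]
          field_simp
          ring
        simp only
        rw [id1]
        have : (-w) * (9 ^ B / (3 ^ B * α)) <
            (α * (((p.1 : ℝ) + 1) / 3 ^ (B + s)) + 1 * (((p.2 : ℝ) + 1) / 9 ^ (B + s)) - t) *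
              (9 ^ B / (3 ^ B * α)) :=
          mul_lt_mul_of_pos_right h4 (by positivity)
        calc -(9 ^ B * w / (3 ^ B * α)) = (-w) * (9 ^ B / (3 ^ B * α)) := by ring
          _ < _ := this
    · intro p hp p' hp' hpp
      rw [mem_coe, mem_filter] at hp hp'
      simp only [Prod.mk.injEq] at hpp
      have a1 : p.1 / 3 ^ s = p'.1 / 3 ^ s := by
        have := hp.2.trans hp'.2.symm
        exact congrArg Prod.fst this
      have a2 : p.2 / 9 ^ s = p'.2 / 9 ^ s := by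
        have := hp.2.trans hp'.2.symm
        exact congrArg Prod.snd this
      ext
      · rw [← Nat.div_add_mod p.1 (3 ^ s), ← Nat.div_add_mod p'.1 (3 ^ s), a1, hpp.1]
      · rw [← Nat.div_add_mod p.2 (9 ^ s), ← Nat.div_add_mod p'.2 (9 ^ s), a2, hpp.2]
  calc ∑ q ∈ M D α 1 t w B,
      (((M D α 1 t w (B + s)).filter (fun p => (p.1 / 3 ^ s, p.2 / 9 ^ s) = q)).card : ℝ)
      ≤ ∑ _q ∈ M D α 1 t w B, C := sum_le_sum h2
    _ = C * (M D α 1 t w B).card := by rw [sum_const, nsmul_eq_mul, mul_comm]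

end Pool.Agent.W710.Tube
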