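import Pool.Agent.W710.Tube.Base

/-!
Counting the rectangles that meet a strip: steep strips.
-/

set_option autoImplicit false

namespace Pool.Agent.W710.Tube

open Finset

variable {D : Finset (ℕ × ℕ)}

/-- the rectangle `[u, u+1] / 3 ^ b × [v, v+1] / 9 ^ b` meets the strip `|α x + β y - t| < w`
(for `α, β ≥ 0`) -/
def Meet (α β t w : ℝ) (b : ℕ) (p : ℕ × ℕ) : Prop :=
  α * ((p.1 : ℝ) / 3 ^ b) + β * ((p.2 : ℝ) / 9 ^ b) - t < w ∧
  -w < α * (((p.1 : ℝ) + 1) / 3 ^ b) + β * (((p.2 : ℝ) + 1) / 9 ^ b) - t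

open Classical in
/-- the rectangles of level `b` that meet the strip -/
noncomputable def M (D : Finset (ℕ × ℕ)) (α β t w : ℝ) (b : ℕ) : Finset (ℕ × ℕ) :=
  (Adm D b).filter (Meet α β t w b)

lemma mem_M (α β t w : ℝ) (b : ℕ) (p : ℕ × ℕ) :
    p ∈ M D α β t w b ↔ p ∈ Adm D b ∧ Meet α β t w b p := by
  classical
  unfold M
  exact mem_filter

lemma low_le (c p r b : ℕ) (hc : 0 < c) :
    ((p / c ^ r : ℕ) : ℝ) / (c : ℝ) ^ b ≤ (p : ℝ) / (c : ℝ) ^ (b + r) := by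
  have hc' : (0 : ℝ) < c := by exact_mod_cast hc
  rw [div_le_div_iff₀ (by positivity) (by positivity), pow_add]
  have h1 : (p / c ^ r) * c ^ r ≤ p := Nat.div_mul_le_self _ _
  have h2 : ((p / c ^ r : ℕ) : ℝ) * (c : ℝ) ^ r ≤ p := by exact_mod_cast h1
  calc ((p / c ^ r : ℕ) : ℝ) * ((c : ℝ) ^ b * (c : ℝ) ^ r)
      = (((p / c ^ r : ℕ) : ℝ) * (c : ℝ) ^ r) * (c : ℝ) ^ b := by ring
    _ ≤ p * (c : ℝ) ^ b := mul_le_mul_of_nonneg_right h2 (by positivity)

lemma up_le (c p r b : ℕ) (hc : 0 < c) :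
    ((p : ℝ) + 1) / (c : ℝ) ^ (b + r) ≤ (((p / c ^ r : ℕ) : ℝ) + 1) / (c : ℝ) ^ b := by
  have hc' : (0 : ℝ) < c := by exact_mod_cast hc
  rw [div_le_div_iff₀ (by positivity) (by positivity), pow_add]
  have h0 : 0 < c ^ r := Nat.pow_pos hc
  have h1 : p + 1 ≤ (p / c ^ r + 1) * c ^ r := by
    have h3 := Nat.div_add_mod p (c ^ r)
    have h4 := Nat.mod_lt p h0
    calc p + 1 = c ^ r * (p / c ^ r) + p % c ^ r + 1 := by rw [h3]
      _ ≤ c ^ r * (p / c ^ r) + c ^ r := by omega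
      _ = (p / c ^ r + 1) * c ^ r := by ring
  have h2 : (p : ℝ) + 1 ≤ (((p / c ^ r : ℕ) : ℝ) + 1) * (c : ℝ) ^ r := by exact_mod_cast h1
  calc ((p : ℝ) + 1) * (c : ℝ) ^ b
      ≤ ((((p / c ^ r : ℕ) : ℝ) + 1) * (c : ℝ) ^ r) * (c : ℝ) ^ b :=
        mul_le_mul_of_nonneg_right h2 (by positivity)
    _ = (((p / c ^ r : ℕ) : ℝ) + 1) * ((c : ℝ) ^ b * (c : ℝ) ^ r) := by ring

lemma low3 (p r b : ℕ) : ((p / 3 ^ r : ℕ) : ℝ) / 3 ^ b ≤ (p : ℝ) / 3 ^ (b + r) := by
  have := low_le 3 p r b (by norm_num)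
  exact_mod_cast this

lemma low9 (p r b : ℕ) : ((p / 9 ^ r : ℕ) : ℝ) / 9 ^ b ≤ (p : ℝ) / 9 ^ (b + r) := by
  have := low_le 9 p r b (by norm_num)
  exact_mod_cast this

lemma up3 (p r b : ℕ) : ((p : ℝ) + 1) / 3 ^ (b + r) ≤ (((p / 3 ^ r : ℕ) : ℝ) + 1) / 3 ^ b := by
  have := up_le 3 p r b (by norm_num)
  exact_mod_cast this

lemma up9 (p r b : ℕ) : ((p : ℝ) + 1) / 9 ^ (b + r) ≤ (((p / 9 ^ r : ℕ) : ℝ) + 1) / 9 ^ b := by
  have := up_le 9 p r b (by norm_num)
  exact_mod_cast this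

lemma M_anc (hD : Good D) {α β t w : ℝ} (hα : 0 ≤ α) (hβ : 0 ≤ β) (b r : ℕ) :
    ∀ p ∈ M D α β t w (b + r), (p.1 / 3 ^ r, p.2 / 9 ^ r) ∈ M D α β t w b := by
  intro p hp
  rw [mem_M] at hp ⊢
  refine ⟨mem_anc hD b r p hp.1, ?_⟩
  obtain ⟨h1, h2⟩ := hp.2
  have e1 := mul_le_mul_of_nonneg_left (low3 p.1 r b) hα
  have e2 := mul_le_mul_of_nonneg_left (low9 p.2 r b) hβ
  have e3 := mul_le_mul_of_nonneg_left (up3 p.1 r b) hα
  have e4 := mul_le_mul_of_nonneg_left (up9 p.2 r b) hβ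
  constructor
  · simp only
    linarith
  · simp only
    linarith

lemma M_desc (hD : Good D) {α β t w : ℝ} (hα : 0 ≤ α) (hβ : 0 ≤ β) (b r : ℕ) :
    (M D α β t w (b + r)).card ≤ 18 ^ r * (M D α β t w b).card := by
  classical
  have h1 := card_le_mul_card_image (f := fun p : ℕ × ℕ => (p.1 / 3 ^ r, p.2 / 9 ^ r))
    (M D α β t w (b + r)) (18 ^ r) (by
      intro q _
      refine desc_all hD b r q.1 q.2 _ ?_ ?_ ?_
      · intro p hp
        rw [mem_filter, mem_M] at hp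
        exact hp.1.1
      · intro p hp
        rw [mem_filter] at hp
        rw [← hp.2]
      · intro p hp
        rw [mem_filter] at hp
        rw [← hp.2])
  refine h1.trans (Nat.mul_le_mul_left _ (card_le_card ?_))
  intro q hq
  rw [mem_image] at hq
  obtain ⟨p, hp, rfl⟩ := hq
  exact M_anc hD hα hβ b r p hp

lemma card_M_zero (α β t w : ℝ) : (M D α β t w 0).card ≤ 1 := by
  classical
  unfold M
  exact (card_filter_le _ _).trans (by simp [Adm])

/-- the vertical line through `ξ / 3 ^ (b + 1)` meets the strip above the `y`-cylinder `v` -/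
def XC (β t w : ℝ) (b : ℕ) (q : ℕ × ℕ) : Prop :=
  (q.1 : ℝ) / 3 ^ (b + 1) + β * ((q.2 : ℝ) / 9 ^ b) - t < w ∧
  -w < (q.1 : ℝ) / 3 ^ (b + 1) + β * (((q.2 : ℝ) + 1) / 9 ^ b) - t

lemma steep_step (hD : Good D) {β t w : ℝ} (hβ : 0 ≤ β) (hw : 0 < w) (b : ℕ)
    (hreg : 2 * w * 9 ^ b ≤ β) :
    ((M D 1 β t w (b + 1)).card : ℝ) ≤
      6 * ((M D 1 β t w b).card + 2 * (3 ^ (b + 1) * (β + 2 * w) + 1)) := by
  classical
  have hβ0 : 0 < β := lt_of_lt_of_le (by positivity) hreg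
  set I := (M D 1 β t w (b + 1)).image (fun p => (p.1, p.2 / 9)) with hI
  -- fibres over I
  have c1 : (M D 1 β t w (b + 1)).card ≤ 6 * I.card := by
    apply card_le_mul_card_image
    intro q _
    refine fiber_col hD b q.1 q.2 _ ?_ ?_ ?_
    · intro p hp
      rw [mem_filter, mem_M] at hp
      exact hp.1.1
    · intro p hp
      rw [mem_filter] at hp
      rw [← hp.2]
    · intro p hp
      rw [mem_filter] at hp
      rw [← hp.2]
  have key : ∀ q ∈ I, ∃ p ∈ M D 1 β t w (b + 1), p.1 = q.1 ∧ p.2 / 9 = q.2 := by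
    intro q hq
    rw [hI, mem_image] at hq
    obtain ⟨p, hp, rfl⟩ := hq
    exact ⟨p, hp, rfl, rfl⟩
  have hlow : ∀ q ∈ I, (q.1 : ℝ) / 3 ^ (b + 1) + β * ((q.2 : ℝ) / 9 ^ b) - t < w := by
    intro q hq
    obtain ⟨p, hp, h1, h2⟩ := key q hq
    rw [mem_M] at hp
    have h3 := hp.2.1
    have h4 := mul_le_mul_of_nonneg_left (low9 p.2 1 b) hβ
    rw [pow_one, h2] at h4
    rw [h1, one_mul] at h3
    linarith
  have hup : ∀ q ∈ I, -w < ((q.1 : ℝ) + 1) / 3 ^ (b + 1) + β * (((q.2 : ℝ) + 1) / 9 ^ b) - t := by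
    intro q hq
    obtain ⟨p, hp, h1, h2⟩ := key q hq
    rw [mem_M] at hp
    have h3 := hp.2.2
    have h4 := mul_le_mul_of_nonneg_left (up9 p.2 1 b) hβ
    rw [pow_one, h2] at h4
    rw [h1, one_mul] at h3
    linarith
  -- splitting
  have c2 : (I.filter (XC β t w b)).card + (I.filter (fun q => ¬ XC β t w b q)).card = I.card :=
    card_filter_add_card_filter_not _
  have c3 : (I.filter (fun q => ¬ XC β t w b q)).card ≤ (M D 1 β t w b).card := by
    refine card_le_card_of_injOn (fun q => (q.1 / 3, q.2)) ?_ ?_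
    · intro q hq
      rw [mem_coe, mem_filter] at hq
      obtain ⟨p, hp, h1, h2⟩ := key q hq.1
      have := M_anc hD zero_le_one hβ b 1 p hp
      rw [pow_one, pow_one, h1, h2] at this
      exact this
    · have aux : ∀ q ∈ I, ∀ q' ∈ I, ¬ XC β t w b q' → q.2 = q'.2 → ¬ q.1 < q'.1 := by
        intro q hq q' hq' hx h2 hlt
        apply hx
        refine ⟨hlow q' hq', ?_⟩
        have h3 := hup q hq
        have h4 : ((q.1 : ℝ) + 1) / 3 ^ (b + 1) ≤ (q'.1 : ℝ) / 3 ^ (b + 1) := by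
          apply div_le_div_of_nonneg_right _ (by positivity)
          exact_mod_cast hlt
        rw [h2] at h3
        linarith
      intro q hq q' hq' hqq
      rw [mem_coe, mem_filter] at hq hq'
      simp only [Prod.mk.injEq] at hqq
      have a1 := aux q hq.1 q' hq'.1 hq'.2 hqq.2
      have a2 := aux q' hq'.1 q hq.1 hq.2 hqq.2.symm
      ext
      · omega
      · exact hqq.2
  have c4 : (I.filter (XC β t w b)).card ≤ 2 * ((I.filter (XC β t w b)).image Prod.fst).card := by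
    apply card_le_mul_card_image
    intro ξ _
    have e1 : ((I.filter (XC β t w b)).filter (fun q => q.1 = ξ)).card ≤
        (((I.filter (XC β t w b)).filter (fun q => q.1 = ξ)).image Prod.snd).card := by
      rw [card_image_of_injOn]
      intro q hq q' hq' hqq
      rw [mem_coe, mem_filter] at hq hq'
      ext
      · rw [hq.2, hq'.2]
      · exact hqq
    refine e1.trans (card_le_nat _ 2 ?_)
    intro v hv v' hv'
    rw [mem_image] at hv hv'
    obtain ⟨q, hq, rfl⟩ := hv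
    obtain ⟨q', hq', rfl⟩ := hv'
    rw [mem_filter, mem_filter] at hq hq'
    have h1 := hq.1.2.2
    have h2 := hq'.1.2.1
    rw [hq.2] at h1
    rw [hq'.2] at h2
    have h3 : β * (((q'.2 : ℝ) - q.2 - 1) / 9 ^ b) < 2 * w := by
      have : β * (((q'.2 : ℝ) - q.2 - 1) / 9 ^ b) =
          β * ((q'.2 : ℝ) / 9 ^ b) - β * (((q.2 : ℝ) + 1) / 9 ^ b) := by ring
      rw [this]
      linarith
    have h4 : β * ((q'.2 : ℝ) - q.2 - 1) < 2 * w * 9 ^ b := by
      have h5 : β * ((q'.2 : ℝ) - q.2 - 1) = β * (((q'.2 : ℝ) - q.2 - 1) / 9 ^ b) * 9 ^ b := by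
        field_simp
      rw [h5]
      exact mul_lt_mul_of_pos_right h3 (by positivity)
    have h5 : β * ((q'.2 : ℝ) - q.2 - 1) < β * 1 := by linarith
    have h6 := lt_of_mul_lt_mul_left h5 hβ
    push_cast
    linarith
  have c5 : (((I.filter (XC β t w b)).image Prod.fst).card : ℝ) ≤
      3 ^ (b + 1) * (β + 2 * w) + 1 := by
    apply card_le_real _ _ (by positivity)
    intro ξ hξ ξ' hξ'
    rw [mem_image] at hξ hξ'
    obtain ⟨q, hq, rfl⟩ := hξ
    obtain ⟨q', hq', rfl⟩ := hξ'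
    rw [mem_filter] at hq hq'
    have h1 := hq.2.2
    have h2 := hq'.2.1
    have h3 : q.2 + 1 ≤ 9 ^ b := by
      obtain ⟨p, hp, _, h5⟩ := key q hq.1
      rw [mem_M, mem_succ hD] at hp
      have := (mem_lt hD b _ hp.1.1).2
      simp only at this
      omega
    have h4 : ((q.2 : ℝ) + 1) / 9 ^ b ≤ 1 := by
      rw [div_le_one (by positivity)]
      exact_mod_cast h3
    have h5 := mul_le_mul_of_nonneg_left h4 hβ
    have h6 : 0 ≤ β * ((q'.2 : ℝ) / 9 ^ b) := by positivity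
    have h7 : ((q'.1 : ℝ) - q.1) / 3 ^ (b + 1) < β + 2 * w := by
      rw [sub_div]
      linarith
    rw [div_lt_iff₀ (by positivity)] at h7
    linarith
  have d1 : ((M D 1 β t w (b + 1)).card : ℝ) ≤ 6 * (I.card : ℝ) := by exact_mod_cast c1
  have d2 : ((I.filter (XC β t w b)).card : ℝ) + ((I.filter (fun q => ¬ XC β t w b q)).card : ℝ) =
    (I.card : ℝ) := by exact_mod_cast c2
  have d3 : ((I.filter (fun q => ¬ XC β t w b q)).card : ℝ) ≤ ((M D 1 β t w b).card : ℝ) := by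
    exact_mod_cast c3
  have d4 : ((I.filter (XC β t w b)).card : ℝ) ≤
    2 * (((I.filter (XC β t w b)).image Prod.fst).card : ℝ) := by exact_mod_cast c4
  linarith

lemma steep_growth (hD : Good D) {β t w : ℝ} (hβ : 0 ≤ β) (hβ9 : β ≤ 9) (hw : 0 < w)
    (hw1 : w ≤ 1) : ∀ b : ℕ, (∀ b' < b, 2 * w * 9 ^ b' ≤ β) →
    ((M D 1 β t w b).card : ℝ) ≤ 136 * 6 ^ b - 12 * (β + 2 * w) * 3 ^ b - 3 := by
  intro b
  induction b with
  | zero =>
    intro _
    have h : ((M D 1 β t w 0).card : ℝ) ≤ 1 := by exact_mod_cast card_M_zero 1 β t w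
    simp only [pow_zero]
    linarith
  | succ b ih =>
    intro h
    have h1 := ih (fun b' hb' => h b' (by omega))
    have h2 := steep_step (t := t) hD hβ hw b (h b (by omega))
    have e1 : (3 : ℝ) ^ (b + 1) = 3 * 3 ^ b := by ring
    have e2 : (6 : ℝ) ^ (b + 1) = 6 * 6 ^ b := by ring
    rw [e1] at h2 ⊢
    rw [e2]
    nlinarith [h1, h2]

lemma steep_part2 (hD : Good D) {β t w : ℝ} (hβ : 0 ≤ β) (g r : ℕ)
    (hreg : β < 2 * w * 9 ^ g) (hr : 3 ^ (g + r) * w ≤ 1) :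
    (M D 1 β t w (g + r)).card ≤ 6 ^ r * (5 * (M D 1 β t w g).card) := by
  classical
  set I := (M D 1 β t w (g + r)).image (fun p => (p.1, p.2 / 9 ^ r)) with hI
  have c1 : (M D 1 β t w (g + r)).card ≤ 6 ^ r * I.card := by
    apply card_le_mul_card_image
    intro q _
    refine desc_col hD g r q.1 q.2 _ ?_ ?_ ?_
    · intro p hp
      rw [mem_filter, mem_M] at hp
      exact hp.1.1
    · intro p hp
      rw [mem_filter] at hp
      rw [← hp.2]
    · intro p hp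
      rw [mem_filter] at hp
      rw [← hp.2]
  have key : ∀ q ∈ I, ∃ p ∈ M D 1 β t w (g + r), p.1 = q.1 ∧ p.2 / 9 ^ r = q.2 := by
    intro q hq
    rw [hI, mem_image] at hq
    obtain ⟨p, hp, rfl⟩ := hq
    exact ⟨p, hp, rfl, rfl⟩
  have hlow : ∀ q ∈ I, (q.1 : ℝ) / 3 ^ (g + r) + β * ((q.2 : ℝ) / 9 ^ g) - t < w := by
    intro q hq
    obtain ⟨p, hp, h1, h2⟩ := key q hq
    rw [mem_M] at hp
    have h3 := hp.2.1
    have h4 := mul_le_mul_of_nonneg_left (low9 p.2 r g) hβ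
    rw [h2] at h4
    rw [h1, one_mul] at h3
    linarith
  have hup : ∀ q ∈ I, -w < ((q.1 : ℝ) + 1) / 3 ^ (g + r) +
      β * (((q.2 : ℝ) + 1) / 9 ^ g) - t := by
    intro q hq
    obtain ⟨p, hp, h1, h2⟩ := key q hq
    rw [mem_M] at hp
    have h3 := hp.2.2
    have h4 := mul_le_mul_of_nonneg_left (up9 p.2 r g) hβ
    rw [h2] at h4
    rw [h1, one_mul] at h3
    linarith
  have c2 : I.card ≤ 5 * (I.image (fun q => (q.1 / 3 ^ r, q.2))).card := by
    apply card_le_mul_card_image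
    intro s _
    have e1 : (I.filter (fun q => (q.1 / 3 ^ r, q.2) = s)).card ≤
        ((I.filter (fun q => (q.1 / 3 ^ r, q.2) = s)).image Prod.fst).card := by
      rw [card_image_of_injOn]
      intro q hq q' hq' hqq
      rw [mem_coe, mem_filter] at hq hq'
      ext
      · exact hqq
      · have a1 := congrArg Prod.snd hq.2
        have a2 := congrArg Prod.snd hq'.2
        simp only at a1 a2
        rw [a1, a2]
    refine e1.trans (card_le_nat _ 5 ?_)
    intro v hv v' hv'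
    rw [mem_image] at hv hv'
    obtain ⟨q, hq, rfl⟩ := hv
    obtain ⟨q', hq', rfl⟩ := hv'
    rw [mem_filter] at hq hq'
    have h1 := hup q hq.1
    have h2 := hlow q' hq'.1
    have a1 := congrArg Prod.snd hq.2
    have a2 := congrArg Prod.snd hq'.2
    simp only at a1 a2
    rw [a1] at h1
    rw [a2] at h2
    have h3 : β / 9 ^ g < 2 * w := by
      rw [div_lt_iff₀ (by positivity)]
      exact hreg
    have h4 : β * (((s.2 : ℝ) + 1) / 9 ^ g) = β * ((s.2 : ℝ) / 9 ^ g) + β / 9 ^ g := by ring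
    rw [h4] at h1
    have h5 : ((q'.1 : ℝ) - q.1 - 1) / 3 ^ (g + r) < 4 * w := by
      have : ((q'.1 : ℝ) - q.1 - 1) / 3 ^ (g + r) =
        (q'.1 : ℝ) / 3 ^ (g + r) - ((q.1 : ℝ) + 1) / 3 ^ (g + r) := by ring
      rw [this]
      linarith
    rw [div_lt_iff₀ (by positivity)] at h5
    push_cast
    nlinarith
  have c3 : (I.image (fun q => (q.1 / 3 ^ r, q.2))).card ≤ (M D 1 β t w g).card := by
    apply card_le_card
    intro s hs
    rw [mem_image] at hs
    obtain ⟨q, hq, rfl⟩ := hs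
    obtain ⟨p, hp, h1, h2⟩ := key q hq
    have := M_anc hD zero_le_one hβ g r p hp
    rw [h1, h2] at this
    exact this
  calc (M D 1 β t w (g + r)).card ≤ 6 ^ r * I.card := c1
    _ ≤ 6 ^ r * (5 * (M D 1 β t w g).card) :=
      Nat.mul_le_mul_left _ (c2.trans (Nat.mul_le_mul_left _ c3))

lemma exists_level (w : ℝ) (hw1 : w ≤ 1) (k : ℕ) (hk : 1 ≤ 3 ^ k * w) :
    ∃ a : ℕ, (3 : ℝ) ^ a * w ≤ 1 ∧ a ≤ k ∧ 1 ≤ (3 : ℝ) ^ (a + 1) * w := by
  classical
  set a := Nat.findGreatest (fun a => (3 : ℝ) ^ a * w ≤ 1) k with ha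
  have hak : a ≤ k := Nat.findGreatest_le k
  have ha1 : (3 : ℝ) ^ a * w ≤ 1 := by
    have := Nat.findGreatest_spec (P := fun a => (3 : ℝ) ^ a * w ≤ 1) (Nat.zero_le k)
      (by simpa using hw1)
    exact this
  refine ⟨a, ha1, hak, ?_⟩
  by_contra hcon
  push Not at hcon
  rcases Nat.lt_or_ge a k with hlt | hge
  · exact Nat.findGreatest_is_greatest (P := fun a => (3 : ℝ) ^ a * w ≤ 1)
      (Nat.lt_succ_self a) hlt hcon.le
  · have : a = k := le_antisymm hak hge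
    rw [this, pow_succ] at hcon
    linarith

/-- **Steep strips.** -/
theorem steep (hD : Good D) {β t w : ℝ} (hβ : 0 ≤ β) (hβ9 : β ≤ 9) (hw : 0 < w) (k : ℕ)
    (hk : 1 ≤ 3 ^ k * w) :
    ((M D 1 β t w k).card : ℝ) ≤ 2040 * w * 18 ^ k := by
  classical
  rcases lt_or_ge 1 w with hw1 | hw1
  · have h1 : (M D 1 β t w k).card ≤ 18 ^ k := by
      refine le_trans ?_ (card_Adm_le hD k)
      apply card_le_card
      intro p hp
      rw [mem_M] at hp
      exact hp.1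
    have h2 : ((M D 1 β t w k).card : ℝ) ≤ 18 ^ k := by exact_mod_cast h1
    have h3 : (0 : ℝ) < 18 ^ k := by positivity
    nlinarith
  obtain ⟨a, ha1, hak, ha2⟩ := exists_level w hw1 k hk
  obtain ⟨g, hgs, hga, hgm⟩ : ∃ g, (g = a ∨ β < 2 * w * 9 ^ g) ∧ g ≤ a ∧
      ∀ b < g, 2 * w * 9 ^ b ≤ β := by
    have hex : ∃ g, g = a ∨ β < 2 * w * 9 ^ g := ⟨a, Or.inl rfl⟩
    refine ⟨Nat.find hex, Nat.find_spec hex, Nat.find_min' hex (Or.inl rfl), ?_⟩
    intro b hb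
    have := Nat.find_min hex hb
    push Not at this
    exact this.2
  have h1 := steep_growth (t := t) hD hβ hβ9 hw hw1 g hgm
  have h1' : ((M D 1 β t w g).card : ℝ) ≤ 136 * 6 ^ g := by
    have : 0 ≤ 12 * (β + 2 * w) * 3 ^ g := by positivity
    linarith
  have h2 : ((M D 1 β t w a).card : ℝ) ≤ 680 * 6 ^ a := by
    rcases hgs with h | h
    · rw [← h]
      have : (0 : ℝ) < 6 ^ g := by positivity
      linarith
    · obtain ⟨r, rfl⟩ : ∃ r, a = g + r := ⟨a - g, by omega⟩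
      have h3 := steep_part2 (t := t) hD hβ g r h ha1
      have h4 : ((M D 1 β t w (g + r)).card : ℝ) ≤ 6 ^ r * (5 * ((M D 1 β t w g).card : ℝ)) := by
        exact_mod_cast h3
      calc ((M D 1 β t w (g + r)).card : ℝ) ≤ 6 ^ r * (5 * ((M D 1 β t w g).card : ℝ)) := h4
        _ ≤ 6 ^ r * (5 * (136 * 6 ^ g)) := by gcongr
        _ = 680 * 6 ^ (g + r) := by rw [pow_add]; ring
  obtain ⟨s, rfl⟩ : ∃ s, k = a + s := ⟨k - a, by omega⟩
  have h5 : ((M D 1 β t w (a + s)).card : ℝ) ≤ 18 ^ s * ((M D 1 β t w a).card : ℝ) := by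
    exact_mod_cast M_desc hD zero_le_one hβ a s
  have h6 : (1 : ℝ) ≤ 3 * (3 ^ a * w) := by
    have : (3 : ℝ) ^ (a + 1) * w = 3 * (3 ^ a * w) := by ring
    linarith
  calc ((M D 1 β t w (a + s)).card : ℝ) ≤ 18 ^ s * ((M D 1 β t w a).card : ℝ) := h5
    _ ≤ 18 ^ s * (680 * 6 ^ a) := by gcongr
    _ = 680 * (18 ^ s * 6 ^ a) * 1 := by ring
    _ ≤ 680 * (18 ^ s * 6 ^ a) * (3 * (3 ^ a * w)) := by gcongr
    _ = 2040 * w * (18 ^ s * (6 ^ a * 3 ^ a)) := by ring
    _ = 2040 * w * 18 ^ (a + s) := by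
      have e : (6 : ℝ) ^ a * 3 ^ a = 18 ^ a := by
        rw [← mul_pow]
        norm_num
      rw [e, pow_add]
      ring

end Pool.Agent.W710.Tube
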